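import Pool.Agent.Lib.MP_60829e_nt.FG.Gen
import Pool.Agent.Lib.MP_60829e_nt.FZ.Ext

/-! # One space of logarithms for all degrees and all numbers of variables -/

open MvPolynomial Module

namespace MP60829e.FG

open MP60829e.ST (Qa Lsp Lt)
open MP60829e.FC (Xr Gen)
open MP60829e.FQ (GoodP)
open MP60829e.FR (PT Rels)
open MP60829e.FZ (Q1Deg)

/-- From linear combinations without constant term to linear combinations with constant term, for
values in `Lt`. -/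
theorem affine_of {n D N : ℕ} (P : MvPolynomial (Fin N ⊕ Fin n) ℂ)
    (hP1 : ∀ g : MvPolynomial (Fin n) ℂ, (∀ a, IsAlgebraic ℚ (coeff a g)) → g.totalDegree ≤ D →
        ∃ z : Fin N → Qa, ∀ x : Fin n → ℂ, eval (Sum.elim (fun l => (z l : ℂ)) x) P = eval x g)
    (F : Submodule ℚ ℂ) (V : Submodule Qa ℂ)
    (h : ∀ (z : Fin N → Qa) (w : Fin n → ℂ), (∀ j, w j ∈ Submodule.span Qa (F : Set ℂ)) →
      Disjoint (Submodule.span Qa (Set.range w)) V →
      eval (Sum.elim (fun l => (z l : ℂ)) w) P ∈ Lt →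
      ∃ (b : Qa) (α : Fin n → Qa), ∀ x : Fin n → ℂ, Rels w x →
        eval (Sum.elim (fun l => (z l : ℂ)) x) P = (b : ℂ) + ∑ j, (α j : ℂ) * x j)
    (g : MvPolynomial (Fin n) ℂ) (hg : ∀ a, IsAlgebraic ℚ (coeff a g)) (hD : g.totalDegree ≤ D)
    (w : Fin n → ℂ)
    (hw : ∀ j, w j ∈ Submodule.span (algebraicClosure ℚ ℂ) ({1} ∪ (F : Set ℂ)))
    (hd : Disjoint (Submodule.span (algebraicClosure ℚ ℂ) ({1} ∪ Set.range w)) V)
    (h0 : eval w g ∈ Lt) :
    ∃ (b : ℂ) (a : Fin n → ℂ), IsAlgebraic ℚ b ∧ (∀ j, IsAlgebraic ℚ (a j)) ∧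
      ∀ x : Fin n → ℂ, (∀ (q₀ : ℂ) (q : Fin n → ℂ), IsAlgebraic ℚ q₀ →
        (∀ j, IsAlgebraic ℚ (q j)) → q₀ + ∑ j, q j * w j = 0 → q₀ + ∑ j, q j * x j = 0) →
        eval x g = b + ∑ j, a j * x j := by
  have hw' : ∀ j, ∃ (c : Qa) (v : ℂ), v ∈ Submodule.span Qa (F : Set ℂ) ∧ w j = (c : ℂ) + v := by
    intro j
    have h1 := hw j
    rw [Submodule.span_union, Submodule.mem_sup] at h1
    obtain ⟨y, hy, v, hv, hyv⟩ := h1
    obtain ⟨c, rfl⟩ := Submodule.mem_span_singleton.1 hy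
    refine ⟨c, v, hv, ?_⟩
    rw [← hyv]
    congr 1
    rw [FZ.smul_eqZ, mul_one]
  choose c v hv hcv using hw'
  obtain ⟨g', hg', hD', he⟩ := FZ.exists_shift g hg hD c
  obtain ⟨z, hz⟩ := hP1 g' hg' hD'
  have h1 : eval (Sum.elim (fun l => (z l : ℂ)) v) P ∈ Lt := by
    have e0 : (fun i => (c i : ℂ) + v i) = w := funext fun j => (hcv j).symm
    rw [hz, he, e0]
    exact h0
  have hle : Submodule.span Qa (Set.range v) ≤
      Submodule.span (algebraicClosure ℚ ℂ) ({1} ∪ Set.range w) := by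
    rw [Submodule.span_le]
    rintro _ ⟨j, rfl⟩
    have e1 : v j = w j - c j • (1 : ℂ) := by
      rw [hcv j, FZ.smul_eqZ, mul_one, add_sub_cancel_left]
    rw [SetLike.mem_coe, e1]
    exact Submodule.sub_mem _ (Submodule.subset_span (Or.inr ⟨j, rfl⟩))
      (Submodule.smul_mem _ _ (Submodule.subset_span (Or.inl rfl)))
  obtain ⟨b, α, hα⟩ := h z v hv (hd.mono_left hle) h1
  refine ⟨((b - ∑ j, α j * c j : Qa) : ℂ), fun j => (α j : ℂ),
    mem_algebraicClosure_iff.1 (b - ∑ j, α j * c j : Qa).2,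
    fun j => mem_algebraicClosure_iff.1 (α j).2, fun x hx => ?_⟩
  have h2 := hα (fun j => x j - (c j : ℂ)) ?_
  · rw [hz, he] at h2
    have e1 : eval x g = eval (fun i => (c i : ℂ) + (x i - (c i : ℂ))) g := by
      congr 2
      funext j
      ring
    rw [e1, h2]
    push_cast
    simp only [mul_sub, Finset.sum_sub_distrib]
    ring
  · intro q hq
    have h3 := hx (-∑ j, (q j : ℂ) * (c j : ℂ)) (fun j => (q j : ℂ)) ?_ ?_ ?_
    · have h4 : ∑ j, q j • (x j - (c j : ℂ)) =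
          -∑ j, (q j : ℂ) * (c j : ℂ) + ∑ j, (q j : ℂ) * x j := by
        rw [neg_add_eq_sub, ← Finset.sum_sub_distrib]
        refine Finset.sum_congr rfl fun j _ => ?_
        rw [FZ.smul_eqZ]
        ring
      rw [h4]
      exact h3
    · refine IsAlgebraic.neg ?_
      have h5 : (∑ j, (q j : ℂ) * (c j : ℂ)) = ((∑ j, q j * c j : Qa) : ℂ) := by
        push_cast
        rfl
      rw [h5]
      exact mem_algebraicClosure_iff.1 (∑ j, q j * c j : Qa).2
    · exact fun j => mem_algebraicClosure_iff.1 (q j).2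
    · have h6 : ∑ j, (q j : ℂ) * w j = ∑ j, (q j : ℂ) * (c j : ℂ) + ∑ j, q j • v j := by
        rw [← Finset.sum_add_distrib]
        refine Finset.sum_congr rfl fun j _ => ?_
        rw [hcv j, FZ.smul_eqZ]
        ring
      rw [h6, hq, add_zero, neg_add_cancel]

/-- One space for all degrees and all numbers of variables. -/
theorem dens (μ : ℕ → ℕ) (hμ : Monotone μ) (s : ℕ) (lam : ℕ → ℂ)
    (halg : ∀ j, IsAlgebraic ℚ (Complex.exp (lam j))) (hli : LinearIndependent ℚ lam)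
    (hspan : ∀ z : ℂ, IsAlgebraic ℚ (Complex.exp z) → z ∈ Submodule.span ℚ (Set.range lam))
    (nf Nf : ℕ → ℕ) (P : (i : ℕ) → MvPolynomial (Fin (Nf i) ⊕ Fin (nf i)) ℂ) :
    ∃ (Φ : ℂ →ₗ[ℚ] (ℕ → ℚ)) (F : Submodule ℚ ℂ),
      (∀ l : ℂ, l ∈ F ↔ IsAlgebraic ℚ (Complex.exp l) ∧ Φ l = 0) ∧
      (∀ j t, j < s ∨ μ j ≤ t → Φ (lam j) t = 0) ∧
      (∀ n D : ℕ, ca n ((n + D).choose n) ≤ μ s →
        Q1Deg n D (Submodule.span ℚ (lam '' Set.Iio s)) → Q1Deg n D F) ∧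
      (∀ n D r : ℕ, n + D ≤ r → s ≤ r → cb n ((n + D).choose n) ≤ μ r →
        ∀ g : MvPolynomial (Fin n) ℂ, (∀ a, IsAlgebraic ℚ (coeff a g)) → g.totalDegree ≤ D →
        ∀ w : Fin n → ℂ,
          (∀ j, w j ∈ Submodule.span (algebraicClosure ℚ ℂ) ({1} ∪ (F : Set ℂ))) →
          Disjoint (Submodule.span (algebraicClosure ℚ ℂ) ({1} ∪ Set.range w))
            (Submodule.span (algebraicClosure ℚ ℂ)
              ((F ⊓ Submodule.span ℚ (lam '' Set.Iio r) : Submodule ℚ ℂ) : Set ℂ)) →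
          eval w g ∈ Submodule.span (algebraicClosure ℚ ℂ)
            ({1} ∪ {l : ℂ | IsAlgebraic ℚ (Complex.exp l)}) →
          ∃ (b : ℂ) (a : Fin n → ℂ), IsAlgebraic ℚ b ∧ (∀ j, IsAlgebraic ℚ (a j)) ∧
            ∀ x : Fin n → ℂ, (∀ (q₀ : ℂ) (q : Fin n → ℂ), IsAlgebraic ℚ q₀ →
              (∀ j, IsAlgebraic ℚ (q j)) → q₀ + ∑ j, q j * w j = 0 → q₀ + ∑ j, q j * x j = 0) →
              eval x g = b + ∑ j, a j * x j) ∧
      ∀ i r : ℕ, i ≤ r → s ≤ r → ca (nf i) (Nf i) ≤ μ r →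
        ∀ (z : Fin (Nf i) → ℂ) (w : Fin (nf i) → ℂ), (∀ l, IsAlgebraic ℚ (z l)) →
          (∀ j, w j ∈ Submodule.span (algebraicClosure ℚ ℂ) (F : Set ℂ)) →
          Disjoint (Submodule.span (algebraicClosure ℚ ℂ) (Set.range w))
            (Submodule.span (algebraicClosure ℚ ℂ)
              ((F ⊓ Submodule.span ℚ (lam '' Set.Iio r) : Submodule ℚ ℂ) : Set ℂ)) →
          (eval (Sum.elim z w) (P i) = 0 →
            ∀ x : Fin (nf i) → ℂ, (∀ q : Fin (nf i) → ℂ, (∀ j, IsAlgebraic ℚ (q j)) →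
              ∑ j, q j * w j = 0 → ∑ j, q j * x j = 0) → eval (Sum.elim z x) (P i) = 0) ∧
          (cb (nf i) (Nf i) ≤ μ r → (∀ a, IsAlgebraic ℚ (coeff a (P i))) →
            eval (Sum.elim z w) (P i) ∈ Submodule.span (algebraicClosure ℚ ℂ)
              ({1} ∪ {l : ℂ | IsAlgebraic ℚ (Complex.exp l)}) →
            ∃ (b : ℂ) (a : Fin (nf i) → ℂ), IsAlgebraic ℚ b ∧ (∀ j, IsAlgebraic ℚ (a j)) ∧
              ∀ x : Fin (nf i) → ℂ, (∀ q : Fin (nf i) → ℂ, (∀ j, IsAlgebraic ℚ (q j)) →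
                ∑ j, q j * w j = 0 → ∑ j, q j * x j = 0) →
                eval (Sum.elim z x) (P i) = b + ∑ j, a j * x j) := by
  classical
  -- the universal polynomials
  choose Un hUalg hU1 hU2 using fun p : ℕ × ℕ => FZ.exists_univC p.1 p.2
  -- the index types
  let I : Type := {i : ℕ // ∃ r, ca (nf i) (Nf i) ≤ μ r}
  let I1 : Type := {p : ℕ × ℕ // ∃ r, cb p.1 ((p.1 + p.2).choose p.1) ≤ μ r}
  let I2 : Type := {i : ℕ // (∀ a, IsAlgebraic ℚ (coeff a (P i))) ∧ ∃ r, cb (nf i) (Nf i) ≤ μ r}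
  let J : Type := {p : Fin (μ s + 1) × Fin (μ s + 1) //
    ca p.1 (((p.1 : ℕ) + (p.2 : ℕ)).choose p.1) ≤ μ s}
  let ρ : I → ℕ := fun i => max (max i.1 s) (Nat.find i.2)
  let ρ1 : I1 → ℕ := fun p => max (max (p.1.1 + p.1.2) s) (Nat.find p.2)
  let ρ2 : I2 → ℕ := fun i => max (max i.1 s) (Nat.find i.2.2)
  obtain ⟨x, Φ, hΦ, hx1, hx2, hR, hA, hB⟩ := gen (I := I) (I' := I1 ⊕ I2) (J := J) hμ s lam halg
    hli hspan
    (fun i => ⟨nf i.1, Nf i.1, P i.1⟩) ρ
    (fun r => by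
      refine Set.Finite.of_injOn (f := fun i : I => i.1) (t := Set.Iic r) ?_
        (Subtype.val_injective.injOn) (Set.finite_Iic r)
      intro i hi
      exact ((le_max_left i.1 s).trans (le_max_left _ _)).trans hi)
    (fun i => (le_max_right i.1 s).trans (le_max_left _ _))
    (fun i => (Nat.find_spec i.2).trans (hμ (le_max_right _ _)))
    (Sum.elim (fun p : I1 => ⟨p.1.1, (p.1.1 + p.1.2).choose p.1.1, Un p.1⟩)
      (fun i : I2 => ⟨nf i.1, Nf i.1, P i.1⟩))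
    (by
      rintro (p | i) a
      · exact hUalg p.1 a
      · exact i.2.1 a)
    (Sum.elim ρ1 ρ2)
    (fun r => by
      have h1 : {i | Sum.elim ρ1 ρ2 i ≤ r} ⊆
          Sum.inl '' {i | ρ1 i ≤ r} ∪ Sum.inr '' {i | ρ2 i ≤ r} := by
        rintro (i | i) hi
        · exact Or.inl ⟨i, hi, rfl⟩
        · exact Or.inr ⟨i, hi, rfl⟩
      refine Set.Finite.subset (Set.Finite.union (Set.Finite.image _ ?_)
        (Set.Finite.image _ ?_)) h1
      · refine Set.Finite.of_injOn (f := fun p : I1 => p.1) (t := Set.Iic r ×ˢ Set.Iic r) ?_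
          (Subtype.val_injective.injOn) ((Set.finite_Iic r).prod (Set.finite_Iic r))
        intro p hp
        have h2 : p.1.1 + p.1.2 ≤ r :=
          ((le_max_left _ s).trans (le_max_left _ _)).trans hp
        exact ⟨(Nat.le_add_right _ _).trans h2, (Nat.le_add_left _ _).trans h2⟩
      · refine Set.Finite.of_injOn (f := fun i : I2 => i.1) (t := Set.Iic r) ?_
          (Subtype.val_injective.injOn) (Set.finite_Iic r)
        intro i hi
        exact ((le_max_left i.1 s).trans (le_max_left _ _)).trans hi)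
    (by
      rintro (p | i)
      · exact (le_max_right _ s).trans (le_max_left _ _)
      · exact (le_max_right _ s).trans (le_max_left _ _))
    (by
      rintro (p | i)
      · exact (Nat.find_spec p.2).trans (hμ (le_max_right _ _))
      · exact (Nat.find_spec i.2.2).trans (hμ (le_max_right _ _)))
    (fun p => ⟨p.1.1, ((p.1.1 : ℕ) + (p.1.2 : ℕ)).choose p.1.1, Un (p.1.1, p.1.2)⟩)
    (fun p => p.2)
  have hF : ∀ l : ℂ, l ∈ SE.Lg ⊓ LinearMap.ker Φ ↔ IsAlgebraic ℚ (Complex.exp l) ∧ Φ l = 0 := by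
    intro l
    rw [Submodule.mem_inf, LinearMap.mem_ker]
    rfl
  have hFs : ((SE.Lg ⊓ LinearMap.ker Φ : Submodule ℚ ℂ) : Set ℂ) =
      {l : ℂ | IsAlgebraic ℚ (Complex.exp l) ∧ Φ l = 0} := by
    ext l
    exact hF l
  have hXN : ∀ r, XN lam x r ≤ Submodule.span Qa
      (((SE.Lg ⊓ LinearMap.ker Φ) ⊓ Submodule.span ℚ (lam '' Set.Iio r) : Submodule ℚ ℂ) :
        Set ℂ) :=
    fun r => XN_le_span hμ lam halg x hx1 Φ hΦ _ hF r
  refine ⟨Φ, SE.Lg ⊓ LinearMap.ker Φ, hF, ?_, ?_, ?_, ?_⟩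
  · rintro j t (hj | hj)
    · rw [hΦ, hx2 j hj]
      rfl
    · rw [hΦ, hx1 j t hj]
  · intro n D hD hQ
    rcases Nat.eq_zero_or_pos n with rfl | hn
    · intro g _ _ w _ h0 y _
      rw [Subsingleton.elim y w]
      exact h0
    · have hn' : n < μ s + 1 := Nat.lt_succ_of_le ((n_le_ca _ _).trans hD)
      have hD' : D < μ s + 1 := FZ.le_of_choose hn ((N_le_ca _ _).trans hD)
      refine FZ.q1deg_of (Un (n, D)) (hU1 (n, D)) _ ?_
      rw [hFs]
      refine hR ⟨(⟨n, hn'⟩, ⟨D, hD'⟩), hD⟩ (fun n' ι => ?_)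
      refine FZ.goodP_E (Un (n, D)) (hU2 (n, D)) (E := Submodule.span ℚ (lam '' Set.Iio s)) ?_ hQ
        ?_ ι
      · intro l hl
        have h1 : Submodule.span ℚ (lam '' Set.Iio s) ≤ SE.Lg := by
          rw [Submodule.span_le]
          rintro _ ⟨j, -, rfl⟩
          exact halg j
        exact h1 hl
      · rintro _ ⟨c, -, rfl⟩
        exact Submodule.sum_mem _ fun j _ => Submodule.smul_mem _ _
          (Submodule.subset_span (Submodule.subset_span ⟨j, j.2, rfl⟩))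
  · intro n D r hnr hsr hr g hg hgD w hw hd h0
    have hex : ∃ r, cb n ((n + D).choose n) ≤ μ r := ⟨r, hr⟩
    refine affine_of (Un (n, D)) (hU1 (n, D)) (SE.Lg ⊓ LinearMap.ker Φ)
      (XN lam x (ρ1 ⟨(n, D), hex⟩)) (fun z w hw hd h0 => ?_) g hg hgD w hw
      (hd.mono_right ?_) h0
    · rw [hFs] at hw
      exact hB (Sum.inl ⟨(n, D), hex⟩) z w hw hd h0
    · refine (XN_mono lam x ?_).trans (hXN r)
      exact max_le (max_le hnr hsr) (Nat.find_min' hex hr)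
  · intro i r hir hsr hr z w hz hw hd
    obtain ⟨z', rfl⟩ : ∃ z' : Fin (Nf i) → Qa, z = fun l => (z' l : ℂ) :=
      ⟨fun l => ⟨z l, mem_algebraicClosure_iff.2 (hz l)⟩, rfl⟩
    rw [hFs] at hw
    refine ⟨fun h0 v hv => ?_, fun hr' hP h0 => ?_⟩
    · have hex : ∃ r, ca (nf i) (Nf i) ≤ μ r := ⟨r, hr⟩
      refine hA ⟨i, hex⟩ z' w hw (hd.mono_right ?_) h0 v (FZ.rels_of hv)
      refine (XN_mono lam x ?_).trans (hXN r)
      exact max_le (max_le hir hsr) (Nat.find_min' hex hr)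
    · have hex : ∃ r, cb (nf i) (Nf i) ≤ μ r := ⟨r, hr'⟩
      obtain ⟨b, a, hab⟩ := hB (Sum.inr ⟨i, hP, hex⟩) z' w hw (hd.mono_right (by
        refine (XN_mono lam x ?_).trans (hXN r)
        exact max_le (max_le hir hsr) (Nat.find_min' hex hr'))) h0
      exact ⟨b, fun j => a j, mem_algebraicClosure_iff.1 b.2,
        fun j => mem_algebraicClosure_iff.1 (a j).2, fun v hv => hab v (FZ.rels_of hv)⟩

end MP60829e.FG
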