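import Pool.Agent.Lib.MP_60829e_nt.FG.Rec

/-! # From generic ultrafilters to hypersurfaces; the recursion for generic functionals -/

open MvPolynomial Module

namespace MP60829e.FG

open MP60829e.ST (Qa Lsp Lt)
open MP60829e.FC (Xr Gen)
open MP60829e.FQ (XQ)

/-- A polynomial over the algebraic numbers is nonzero at the rational points outside a hypersurface
over the rational numbers. -/
theorem exists_rat {m : ℕ} (f : MvPolynomial (Fin m) Qa) (hf : f ≠ 0) :
    ∃ g : MvPolynomial (Fin m) ℚ, g ≠ 0 ∧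
      ∀ a : Fin m → ℚ, eval a g ≠ 0 → eval (fun s => ((a s : ℚ) : Qa)) f ≠ 0 := by
  classical
  obtain ⟨d, hd⟩ := MvPolynomial.ne_zero_iff.1 hf
  obtain ⟨φ, hφ⟩ : ∃ φ : Module.Dual ℚ Qa, φ (coeff d f) ≠ 0 := by
    by_contra hcon
    push Not at hcon
    exact hd ((Module.forall_dual_apply_eq_zero_iff ℚ (coeff d f)).1 hcon)
  refine ⟨∑ e ∈ f.support, monomial e (φ (coeff e f)), ?_, fun a ha => ?_⟩
  · rw [MvPolynomial.ne_zero_iff]
    refine ⟨d, ?_⟩
    rw [coeff_sum, Finset.sum_eq_single d]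
    · rwa [coeff_monomial, if_pos rfl]
    · intro e _ he
      rw [coeff_monomial, if_neg he]
    · intro h
      rw [MvPolynomial.notMem_support_iff] at h
      exact absurd h hd
  · intro h0
    apply ha
    rw [map_sum]
    have h1 : φ (eval (fun s => ((a s : ℚ) : Qa)) f) =
        ∑ e ∈ f.support, eval a (monomial e (φ (coeff e f))) := by
      rw [eval_eq, map_sum]
      refine Finset.sum_congr rfl fun e _ => ?_
      rw [eval_monomial, Finsupp.prod]
      have h2 : coeff e f * ∏ i ∈ e.support, ((a i : ℚ) : Qa) ^ e i =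
          (∏ i ∈ e.support, a i ^ e i) • coeff e f := by
        rw [Algebra.smul_def, mul_comm, map_prod]
        congr 1
        refine Finset.prod_congr rfl fun i _ => ?_
        rw [map_pow]
        rfl
      rw [h2, map_smul, smul_eq_mul, mul_comm]
    rw [← h1, h0, map_zero]

/-- A property which holds almost everywhere for each generic ultrafilter holds outside a
hypersurface. -/
theorem hyp_of_gen {m : ℕ} (G : (Fin m → ℚ) → Prop)
    (h : ∀ U : Ultrafilter (Fin m → ℚ), Gen U → ∀ᶠ a in (U : Filter (Fin m → ℚ)), G a) :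
    ∃ f : MvPolynomial (Fin m) ℚ, f ≠ 0 ∧ ∀ a, eval a f ≠ 0 → G a := by
  classical
  have h1 : ∃ f : MvPolynomial (Fin m) Qa, f ≠ 0 ∧
      ∀ a : Fin m → ℚ, eval (fun s => ((a s : ℚ) : Qa)) f ≠ 0 → G a := by
    by_contra hcon
    push Not at hcon
    obtain ⟨U, hS, hU⟩ := FC.exists_ultra (fun (a : Fin m → ℚ) s => ((a s : ℚ) : Qa))
      {a | ¬ G a} (fun P hP => by
        obtain ⟨a, ha, ha'⟩ := hcon P hP
        exact ⟨a, ha', ha⟩)
    have h2 := h U hU
    have h3 : ∀ᶠ a in (U : Filter (Fin m → ℚ)), ¬ G a := hS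
    obtain ⟨a, ha, ha'⟩ := (h2.and h3).exists
    exact ha' ha
  obtain ⟨f, hf, hfG⟩ := h1
  obtain ⟨g, hg, hgf⟩ := exists_rat f hf
  exact ⟨g, hg, fun a ha => hfG a (hgf a ha)⟩

/-- The invariant of the recursion. -/
private def Inv {I : Type} (μ : ℕ → ℕ) (s : ℕ) (lam : ℕ → ℂ)
    (G : I → Submodule Qa ℂ → Submodule Qa ℂ → Prop) (ρ : I → ℕ) (r : ℕ)
    (x : ℕ → ℕ → ℚ) : Prop :=
  (∀ j t, μ j ≤ t → x j t = 0) ∧ (∀ j < s, x j = 0) ∧
    ∀ i, ρ i ≤ r → G i (XN lam x r) (XN lam x (ρ i))

private theorem inv_step {I : Type} {μ : ℕ → ℕ} (hμ : Monotone μ) {s : ℕ} (lam : ℕ → ℂ)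
    (G : I → Submodule Qa ℂ → Submodule Qa ℂ → Prop) (ρ : I → ℕ)
    (hfin : ∀ r, {i | ρ i ≤ r}.Finite)
    (hbase : ∀ i (x : ℕ → ℕ → ℚ), (∀ j < s, x j = 0) → G i (XN lam x (ρ i)) (XN lam x (ρ i)))
    (hstep : ∀ i r, ρ i ≤ r → ∀ (x : ℕ → Fin (μ r) → ℚ) (U : Ultrafilter (Fin (μ r) → ℚ)),
      Gen U → ∀ V, G i (Xr lam x r) V → ∀ᶠ a in (U : Filter (Fin (μ r) → ℚ)),
        G i (Xr lam (Function.update x r a) (r + 1)) V)
    (r : ℕ) (hr : s ≤ r) (x : ℕ → ℕ → ℚ) (h : Inv μ s lam G ρ r x) :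
    ∃ f : MvPolynomial (Fin (μ r)) ℚ, f ≠ 0 ∧ ∀ a : Fin (μ r) → ℚ, eval a f ≠ 0 →
      Inv μ s lam G ρ (r + 1) (Function.update x r (pad a)) := by
  obtain ⟨h1, h2, h3⟩ := h
  have hX : XN lam x r = Xr lam (res (μ r) x) r :=
    XN_eq lam x r (μ r) fun j hj t ht => h1 j t ((hμ hj.le).trans ht)
  obtain ⟨f, hf, hfG⟩ := hyp_of_gen (m := μ r) (fun a => ∀ i ∈ {i | ρ i ≤ r},
      G i (Xr lam (Function.update (res (μ r) x) r a) (r + 1)) (XN lam x (ρ i)))
    (fun U hU => by
      rw [Filter.eventually_all_finite (hfin r)]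
      intro i hi
      refine hstep i r hi (res (μ r) x) U hU _ ?_
      rw [← hX]
      exact h3 i hi)
  refine ⟨f, hf, fun a ha => ?_⟩
  have h5 : ∀ j t, μ j ≤ t → Function.update x r (pad a) j t = 0 := by
    intro j t ht
    rcases eq_or_ne j r with rfl | hj
    · rw [Function.update_self]
      exact pad_ge a ht
    · rw [Function.update_of_ne hj]
      exact h1 j t ht
  have h6 : ∀ j < s, Function.update x r (pad a) j = 0 := by
    intro j hj
    rw [Function.update_of_ne (by omega)]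
    exact h2 j hj
  refine ⟨h5, h6, fun i hi => ?_⟩
  rcases Nat.lt_or_ge r (ρ i) with hri | hri
  · obtain hρ : ρ i = r + 1 := by omega
    rw [← hρ]
    exact hbase i _ h6
  · have h7 : XN lam (Function.update x r (pad a)) (ρ i) = XN lam x (ρ i) :=
      XN_congr lam fun j hj => Function.update_of_ne (by omega) _ _
    have h8 : XN lam (Function.update x r (pad a)) (r + 1) =
        Xr lam (Function.update (res (μ r) x) r a) (r + 1) := by
      rw [XN_eq lam _ (r + 1) (μ r) fun j hj t ht =>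
        h5 j t ((hμ (Nat.lt_succ_iff.1 hj)).trans ht), res_update]
    rw [h7, h8]
    exact hfG a ha i hri

/-- The sequence with given first values and zero afterwards. -/
private def ext0 {r : ℕ} (y : Fin r → ℕ → ℚ) (j : ℕ) : ℕ → ℚ :=
  if h : j < r then y ⟨j, h⟩ else 0

/-- The recursion for generic functionals: at each step one hypersurface, which depends on the
previous values, has to be avoided. -/
theorem exists_H {I : Type} {μ : ℕ → ℕ} (hμ : Monotone μ) (s : ℕ) (lam : ℕ → ℂ)
    (G : I → Submodule Qa ℂ → Submodule Qa ℂ → Prop) (ρ : I → ℕ)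
    (hfin : ∀ r, {i | ρ i ≤ r}.Finite) (hs : ∀ i, s ≤ ρ i)
    (hbase : ∀ i (x : ℕ → ℕ → ℚ), (∀ j < s, x j = 0) → G i (XN lam x (ρ i)) (XN lam x (ρ i)))
    (hstep : ∀ i r, ρ i ≤ r → ∀ (x : ℕ → Fin (μ r) → ℚ) (U : Ultrafilter (Fin (μ r) → ℚ)),
      Gen U → ∀ V, G i (Xr lam x r) V → ∀ᶠ a in (U : Filter (Fin (μ r) → ℚ)),
        G i (Xr lam (Function.update x r a) (r + 1)) V) :
    ∃ H : (r : ℕ) → (Fin r → ℕ → ℚ) → MvPolynomial (Fin (μ r)) ℚ, (∀ r y, H r y ≠ 0) ∧
      ∀ x : ℕ → ℕ → ℚ, (∀ j t, μ j ≤ t → x j t = 0) → (∀ j < s, x j = 0) →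
        (∀ r, s ≤ r → eval (fun t : Fin (μ r) => x r t) (H r fun j => x j) ≠ 0) →
        ∀ i r, ρ i ≤ r → G i (XN lam x r) (XN lam x (ρ i)) := by
  classical
  choose f hf0 hf using fun (r : ℕ) (hr : s ≤ r) (x : ℕ → ℕ → ℚ) (h : Inv μ s lam G ρ r x) =>
    inv_step hμ lam G ρ hfin hbase hstep r hr x h
  obtain ⟨H, hH⟩ : ∃ H : (r : ℕ) → (Fin r → ℕ → ℚ) → MvPolynomial (Fin (μ r)) ℚ,
      ∀ r y, H r y = if h : s ≤ r ∧ Inv μ s lam G ρ r (ext0 y) then f r h.1 (ext0 y) h.2
        else 1 := ⟨_, fun _ _ => rfl⟩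
  refine ⟨H, fun r y => ?_, fun x hx1 hx2 hx3 => ?_⟩
  · rw [hH]
    split_ifs with h
    · exact hf0 r h.1 _ h.2
    · exact one_ne_zero
  · -- the restrictions of `x`
    have hext : ∀ r, ∀ j < r, ext0 (fun j : Fin r => x j) j = x j := by
      intro r j hj
      unfold ext0
      rw [dif_pos hj]
    have hext0 : ∀ r, ∀ j, r ≤ j → ext0 (fun j : Fin r => x j) j = 0 := by
      intro r j hj
      unfold ext0
      rw [dif_neg (by omega)]
    have key : ∀ k, Inv μ s lam G ρ (k + s) (ext0 fun j : Fin (k + s) => x j) := by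
      intro k
      have hsup : ∀ r, (∀ j t, μ j ≤ t → ext0 (fun j : Fin r => x j) j t = 0) ∧
          ∀ j < s, ext0 (fun j : Fin r => x j) j = 0 := by
        intro r
        refine ⟨fun j t ht => ?_, fun j hj => ?_⟩
        · rcases Nat.lt_or_ge j r with h | h
          · rw [hext r j h]
            exact hx1 j t ht
          · rw [hext0 r j h]
            rfl
        · rcases Nat.lt_or_ge j r with h | h
          · rw [hext r j h]
            exact hx2 j hj
          · exact hext0 r j h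
      induction k with
      | zero =>
        refine ⟨(hsup _).1, (hsup _).2, fun i hi => ?_⟩
        have h1 : ρ i = 0 + s := by
          have := hs i
          omega
        rw [← h1]
        exact hbase i _ (hsup _).2
      | succ k ih =>
        have hk : k + 1 + s = k + s + 1 := by omega
        have h1 := hf (k + s) (by omega) _ ih (fun t => x (k + s) t) (by
          have h2 := hx3 (k + s) (by omega)
          rw [hH, dif_pos ⟨by omega, ih⟩] at h2
          exact h2)
        obtain ⟨h2, h3, h4⟩ := h1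
        have h5 : ∀ j < k + s + 1, Function.update (ext0 fun j : Fin (k + s) => x j) (k + s)
            (pad fun t : Fin (μ (k + s)) => x (k + s) t) j =
              ext0 (fun j : Fin (k + s + 1) => x j) j := by
          intro j hj
          rw [hext (k + s + 1) j hj]
          rcases eq_or_ne j (k + s) with rfl | hne
          · rw [Function.update_self]
            funext t
            rcases Nat.lt_or_ge t (μ (k + s)) with ht | ht
            · exact pad_fin (fun t : Fin (μ (k + s)) => x (k + s) t) ⟨t, ht⟩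
            · rw [pad_ge _ ht, hx1 _ t ht]
          · rw [Function.update_of_ne hne, hext (k + s) j (by omega)]
        rw [hk]
        refine ⟨(hsup _).1, (hsup _).2, fun i hi => ?_⟩
        have h6 := h4 i hi
        rw [XN_congr lam (r := k + s + 1) h5,
          XN_congr lam (r := ρ i) fun j hj => h5 j (by omega)] at h6
        exact h6
    intro i r hir
    obtain ⟨k, rfl⟩ : ∃ k, r = k + s := ⟨r - s, by have := hs i; omega⟩
    obtain ⟨-, -, h1⟩ := key k
    have h2 := h1 i hir
    rw [XN_congr lam (r := k + s) (hext (k + s)),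
      XN_congr lam (r := ρ i) fun j hj => hext (k + s) j (by omega)] at h2
    exact h2

end MP60829e.FG
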