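import Pool.Agent.Lib.MP_60829e_nt.FG.DensA
import Pool.Agent.Lib.MP_60829e_nt.FG.Hyp

/-! # Generic spaces of logarithms: all degrees, all numbers of variables, value zero -/

open MvPolynomial Module

namespace MP60829e.FG

open MP60829e.ST (Qa Lsp Lt)
open MP60829e.FC (Xr Gen)
open MP60829e.FQ (GoodP)
open MP60829e.FR (PT Rels)
open MP60829e.FZ (Q1Deg)

/-- The general theorem for generic functionals: families `P i`, and families `R j` without
exceptions. -/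
theorem genH {I J : Type} [Finite J] {μ : ℕ → ℕ} (hμ : Monotone μ) (s : ℕ) (lam : ℕ → ℂ)
    (halg : ∀ j, IsAlgebraic ℚ (Complex.exp (lam j))) (hli : LinearIndependent ℚ lam)
    (hspan : ∀ z : ℂ, IsAlgebraic ℚ (Complex.exp z) → z ∈ Submodule.span ℚ (Set.range lam))
    (P : I → FamA) (ρ : I → ℕ)
    (hfin : ∀ r, {i | ρ i ≤ r}.Finite) (hs : ∀ i, s ≤ ρ i)
    (hb : ∀ i, cS (P i).n (P i).N ≤ μ (ρ i))
    (R : J → FamA) (hbj : ∀ j, cS (R j).n (R j).N ≤ μ s) :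
    ∃ H : (r : ℕ) → (Fin r → ℕ → ℚ) → MvPolynomial (Fin (μ r)) ℚ, (∀ r y, H r y ≠ 0) ∧
      ∀ (x : ℕ → ℕ → ℚ) (Φ : ℂ →ₗ[ℚ] (ℕ → ℚ)), (∀ j, Φ (lam j) = x j) →
      (∀ j t, μ j ≤ t → x j t = 0) → (∀ j < s, x j = 0) →
      (∀ r, s ≤ r → eval (fun t : Fin (μ r) => x r t) (H r fun j => x j) ≠ 0) →
      (∀ j : J, (∀ (n' : ℕ) (ι : Fin n' ↪ Fin (R j).n),
          GoodP (PT ι (R j).P) (XN lam 0 s) ⊥) →
        ∀ (z : Fin (R j).N → Qa) (w : Fin (R j).n → ℂ),
          (∀ j, w j ∈ Submodule.span Qa {l : ℂ | IsAlgebraic ℚ (Complex.exp l) ∧ Φ l = 0}) →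
          eval (Sum.elim (fun l => (z l : ℂ)) w) (R j).P = 0 →
          ∀ x : Fin (R j).n → ℂ, Rels w x →
            eval (Sum.elim (fun l => (z l : ℂ)) x) (R j).P = 0) ∧
      ∀ (i : I) (z : Fin (P i).N → Qa) (w : Fin (P i).n → ℂ),
        (∀ j, w j ∈ Submodule.span Qa {l : ℂ | IsAlgebraic ℚ (Complex.exp l) ∧ Φ l = 0}) →
        Disjoint (Submodule.span Qa (Set.range w)) (XN lam x (ρ i)) →
        eval (Sum.elim (fun l => (z l : ℂ)) w) (P i).P = 0 →
        ∀ x : Fin (P i).n → ℂ, Rels w x →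
          eval (Sum.elim (fun l => (z l : ℂ)) x) (P i).P = 0 := by
  classical
  have hlam := FC.baker lam halg hli
  have hlog : ∀ j, lam j ∈ Lsp := fun j => Submodule.subset_span (halg j)
  let G : I ⊕ J → Submodule Qa ℂ → Submodule Qa ℂ → Prop := fun i X V =>
    Sum.elim (fun i => GS (P i).P X V) (fun j =>
      (∀ (n' : ℕ) (ι : Fin n' ↪ Fin (R j).n), GoodP (PT ι (R j).P) (XN lam 0 s) ⊥) →
        GS (R j).P X ⊥) i
  let ρρ : I ⊕ J → ℕ := Sum.elim ρ fun _ => s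
  obtain ⟨H, hH0, hH⟩ := exists_H hμ s lam G ρρ (fun r => by
      have h1 : {i | ρρ i ≤ r} ⊆ Sum.inl '' {i | ρ i ≤ r} ∪
          Sum.inr '' (Set.univ : Set J) := by
        rintro (i | j) hi
        · exact Or.inl ⟨i, hi, rfl⟩
        · exact Or.inr ⟨j, Set.mem_univ j, rfl⟩
      exact Set.Finite.subset (((hfin r).image _).union ((Set.toFinite _).image _)) h1)
    (by
      rintro (i | j)
      · exact hs i
      · exact le_refl s)
    (by
      rintro (i | j) x hx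
      · exact gs_base _ _
      · have h1 : XN lam x s = XN lam 0 s := XN_congr lam fun j hj => hx j hj
        show (∀ (n' : ℕ) (ι : Fin n' ↪ Fin (R j).n), GoodP (PT ι (R j).P) (XN lam 0 s) ⊥) →
          GS (R j).P (XN lam x s) ⊥
        intro h t
        rw [h1]
        exact h _ t.2)
    (by
      rintro (i | j) r hr x U hU V h
      · exact gs_step ((hb i).trans (hμ hr)) lam hlam hlog x U hU (P i).P V h
      · have h1 : (∀ (n' : ℕ) (ι : Fin n' ↪ Fin (R j).n),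
            GoodP (PT ι (R j).P) (XN lam 0 s) ⊥) → GS (R j).P (Xr lam x r) ⊥ := h
        show ∀ᶠ a in (U : Filter (Fin (μ r) → ℚ)),
          ((∀ (n' : ℕ) (ι : Fin n' ↪ Fin (R j).n), GoodP (PT ι (R j).P) (XN lam 0 s) ⊥) →
            GS (R j).P (Xr lam (Function.update x r a) (r + 1)) ⊥)
        rw [Filter.eventually_imp_distrib_left]
        intro h2
        exact gs_step ((hbj j).trans (hμ hr)) lam hlam hlog x U hU (R j).P ⊥ (h1 h2))
  refine ⟨H, hH0, fun x Φ hΦ hx1 hx2 hxH => ?_⟩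
  have hx3 := hH x hx1 hx2 hxH
  refine ⟨fun j hH z w hw h0 v hv => ?_, fun i z w hw hd h0 v hv => ?_⟩
  · obtain ⟨r, hr⟩ := exists_r lam x hspan Φ hΦ w hw
    have h1 : GS (R j).P (XN lam x (max r s)) ⊥ :=
      hx3 (Sum.inr j) (max r s) (le_max_right r s) hH
    exact gs_main h1 z w (fun j => XN_mono lam x (le_max_left r s) (hr j)) disjoint_bot_right
      h0 v hv
  · obtain ⟨r, hr⟩ := exists_r lam x hspan Φ hΦ w hw
    have h1 : GS (P i).P (XN lam x (max r (ρ i))) (XN lam x (ρ i)) :=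
      hx3 (Sum.inl i) (max r (ρ i)) (le_max_right r _)
    exact gs_main h1 z w (fun j => XN_mono lam x (le_max_left r _) (hr j)) hd h0 v hv

/-- Generic spaces of logarithms, all degrees and all numbers of variables. -/
theorem densH (μ : ℕ → ℕ) (hμ : Monotone μ) (s : ℕ) (lam : ℕ → ℂ)
    (halg : ∀ j, IsAlgebraic ℚ (Complex.exp (lam j))) (hli : LinearIndependent ℚ lam)
    (hspan : ∀ z : ℂ, IsAlgebraic ℚ (Complex.exp z) → z ∈ Submodule.span ℚ (Set.range lam))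
    (nf Nf : ℕ → ℕ) (P : (i : ℕ) → MvPolynomial (Fin (Nf i) ⊕ Fin (nf i)) ℂ) :
    ∃ H : (r : ℕ) → (Fin r → ℕ → ℚ) → MvPolynomial (Fin (μ r)) ℚ, (∀ r y, H r y ≠ 0) ∧
      ∀ Φ : ℂ →ₗ[ℚ] (ℕ → ℚ), (∀ j t, μ j ≤ t → Φ (lam j) t = 0) → (∀ j < s, Φ (lam j) = 0) →
      (∀ r, s ≤ r → eval (fun t : Fin (μ r) => Φ (lam r) t) (H r fun j => Φ (lam j)) ≠ 0) →
      ∀ F : Submodule ℚ ℂ, (∀ l : ℂ, l ∈ F ↔ IsAlgebraic ℚ (Complex.exp l) ∧ Φ l = 0) →
      (∀ r, r ≤ finrank ℚ (F ⊓ Submodule.span ℚ (lam '' Set.Iio r) : Submodule ℚ ℂ) + μ r) ∧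
      (∀ n D : ℕ, (n + D).choose n + n * (n - 1) + 1 ≤ μ s →
        Submodule.span ℚ (lam '' Set.Iio s) ≤ Submodule.span ℚ {2 * Real.pi * Complex.I} ∨
          Q1Deg n D (Submodule.span ℚ (lam '' Set.Iio s)) → Q1Deg n D F) ∧
      (∀ n D r : ℕ, s ≤ r → (n + D).choose n + n * (n - 1) + 1 ≤ μ r →
        ∀ g : MvPolynomial (Fin n) ℂ, (∀ a, IsAlgebraic ℚ (coeff a g)) → g.totalDegree ≤ D →
        ∀ w : Fin n → ℂ,
          (∀ j, w j ∈ Submodule.span (algebraicClosure ℚ ℂ) ({1} ∪ (F : Set ℂ))) →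
          Disjoint (Submodule.span (algebraicClosure ℚ ℂ) ({1} ∪ Set.range w))
            (Submodule.span (algebraicClosure ℚ ℂ)
              ((F ⊓ Submodule.span ℚ (lam '' Set.Iio r) : Submodule ℚ ℂ) : Set ℂ)) →
          eval w g = 0 →
            ∀ x : Fin n → ℂ, (∀ (q₀ : ℂ) (q : Fin n → ℂ), IsAlgebraic ℚ q₀ →
              (∀ j, IsAlgebraic ℚ (q j)) → q₀ + ∑ j, q j * w j = 0 → q₀ + ∑ j, q j * x j = 0) →
              eval x g = 0) ∧
      ∀ i r : ℕ, i ≤ r → s ≤ r → Nf i + nf i * (nf i - 1) + 1 ≤ μ r →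
        ∀ (z : Fin (Nf i) → ℂ) (w : Fin (nf i) → ℂ), (∀ l, IsAlgebraic ℚ (z l)) →
          (∀ j, w j ∈ Submodule.span (algebraicClosure ℚ ℂ) (F : Set ℂ)) →
          Disjoint (Submodule.span (algebraicClosure ℚ ℂ) (Set.range w))
            (Submodule.span (algebraicClosure ℚ ℂ)
              ((F ⊓ Submodule.span ℚ (lam '' Set.Iio r) : Submodule ℚ ℂ) : Set ℂ)) →
          eval (Sum.elim z w) (P i) = 0 →
            ∀ x : Fin (nf i) → ℂ, (∀ q : Fin (nf i) → ℂ, (∀ j, IsAlgebraic ℚ (q j)) →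
              ∑ j, q j * w j = 0 → ∑ j, q j * x j = 0) → eval (Sum.elim z x) (P i) = 0 := by
  classical
  -- the universal polynomials
  choose Un hUalg hU1 hU2 using fun p : ℕ × ℕ => FZ.exists_univC p.1 p.2
  -- the index types
  let I : Type := {i : ℕ // ∃ r, cS (nf i) (Nf i) ≤ μ r}
  let I1 : Type := {p : ℕ × ℕ // 1 ≤ p.1 ∧ ∃ r, cS p.1 ((p.1 + p.2).choose p.1) ≤ μ r}
  let J : Type := {p : Fin (μ s + 1) × Fin (μ s + 1) //
    cS p.1 (((p.1 : ℕ) + (p.2 : ℕ)).choose p.1) ≤ μ s}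
  let ρ : I → ℕ := fun i => max (max i.1 s) (Nat.find i.2)
  let ρ1 : I1 → ℕ := fun p => max s (Nat.find p.2.2)
  obtain ⟨H, hH0, hH⟩ := genH (I := I ⊕ I1) (J := J) hμ s lam halg
    hli hspan
    (Sum.elim (fun i : I => ⟨nf i.1, Nf i.1, P i.1⟩)
      (fun p : I1 => ⟨p.1.1, (p.1.1 + p.1.2).choose p.1.1, Un p.1⟩))
    (Sum.elim ρ ρ1)
    (fun r => by
      have h1 : {i | Sum.elim ρ ρ1 i ≤ r} ⊆
          Sum.inl '' {i | ρ i ≤ r} ∪ Sum.inr '' {i | ρ1 i ≤ r} := by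
        rintro (i | i) hi
        · exact Or.inl ⟨i, hi, rfl⟩
        · exact Or.inr ⟨i, hi, rfl⟩
      refine Set.Finite.subset (Set.Finite.union (Set.Finite.image _ ?_)
        (Set.Finite.image _ ?_)) h1
      · refine Set.Finite.of_injOn (f := fun i : I => i.1) (t := Set.Iic r) ?_
          (Subtype.val_injective.injOn) (Set.finite_Iic r)
        intro i hi
        exact ((le_max_left i.1 s).trans (le_max_left _ _)).trans hi
      · refine Set.Finite.of_injOn (f := fun p : I1 => p.1)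
          (t := Set.Iic (μ r) ×ˢ Set.Iic (μ r)) ?_
          (Subtype.val_injective.injOn) ((Set.finite_Iic _).prod (Set.finite_Iic _))
        intro p hp
        have h2 : cS p.1.1 ((p.1.1 + p.1.2).choose p.1.1) ≤ μ r :=
          (Nat.find_spec p.2.2).trans (hμ ((le_max_right s _).trans hp))
        refine ⟨(n_le_cS _ _).trans h2, ?_⟩
        have h3 := FZ.le_of_choose p.2.1 ((N_le_cS p.1.1 _).trans h2)
        exact Nat.le_of_lt_succ h3)
    (by
      rintro (i | p)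
      · exact (le_max_right _ s).trans (le_max_left _ _)
      · exact le_max_left s _)
    (by
      rintro (i | p)
      · exact (Nat.find_spec i.2).trans (hμ (le_max_right _ _))
      · exact (Nat.find_spec p.2.2).trans (hμ (le_max_right _ _)))
    (fun p => ⟨p.1.1, ((p.1.1 : ℕ) + (p.1.2 : ℕ)).choose p.1.1, Un (p.1.1, p.1.2)⟩)
    (fun p => p.2)
  refine ⟨H, hH0, fun Φ hx1 hx2 hxH F hF => ?_⟩
  obtain ⟨hR, hA⟩ := hH (fun j => Φ (lam j)) Φ (fun _ => rfl) hx1 hx2 hxH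
  have hFs : (F : Set ℂ) = {l : ℂ | IsAlgebraic ℚ (Complex.exp l) ∧ Φ l = 0} := by
    ext l
    exact hF l
  have hXN : ∀ r, XN lam (fun j => Φ (lam j)) r ≤ Submodule.span Qa
      ((F ⊓ Submodule.span ℚ (lam '' Set.Iio r) : Submodule ℚ ℂ) : Set ℂ) :=
    fun r => XN_le_span hμ lam halg _ hx1 Φ (fun _ => rfl) _ hF r
  refine ⟨codim_le hμ lam halg hli _ hx1 Φ (fun _ => rfl) _ hF, ?_, ?_, ?_⟩
  · intro n D hD hQ
    rcases Nat.eq_zero_or_pos n with rfl | hn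
    · intro g _ _ w _ h0 y _
      rw [Subsingleton.elim y w]
      exact h0
    · have hQ' : Q1Deg n D (Submodule.span ℚ (lam '' Set.Iio s)) := by
        rcases hQ with h | h
        · exact (FZ.q1deg_two_pi n D).mono h
        · exact h
      have hn' : n < μ s + 1 := Nat.lt_succ_of_le ((n_le_cS _ _).trans hD)
      have hD' : D < μ s + 1 := FZ.le_of_choose hn ((N_le_cS _ _).trans hD)
      refine FZ.q1deg_of (Un (n, D)) (hU1 (n, D)) _ ?_
      rw [hFs]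
      refine hR ⟨(⟨n, hn'⟩, ⟨D, hD'⟩), hD⟩ (fun n' ι => ?_)
      refine FZ.goodP_E (Un (n, D)) (hU2 (n, D)) (E := Submodule.span ℚ (lam '' Set.Iio s)) ?_
        hQ' ?_ ι
      · intro l hl
        have h1 : Submodule.span ℚ (lam '' Set.Iio s) ≤ SE.Lg := by
          rw [Submodule.span_le]
          rintro _ ⟨j, -, rfl⟩
          exact halg j
        exact h1 hl
      · rintro _ ⟨c, -, rfl⟩
        exact Submodule.sum_mem _ fun j _ => Submodule.smul_mem _ _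
          (Submodule.subset_span (Submodule.subset_span ⟨j, j.2, rfl⟩))
  · intro n D r hsr hr g hg hgD w hw hd h0 v hv
    rcases Nat.eq_zero_or_pos n with rfl | hn
    · rw [Subsingleton.elim v w]
      exact h0
    · have hex : 1 ≤ n ∧ ∃ r, cS n ((n + D).choose n) ≤ μ r := ⟨hn, r, hr⟩
      refine hull_of (Un (n, D)) (hU1 (n, D)) F
        (XN lam (fun j => Φ (lam j)) (ρ1 ⟨(n, D), hex⟩)) (fun z w hw hd h0 => ?_) g hg hgD w hw
        (hd.mono_right ?_) h0 v hv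
      · rw [hFs] at hw
        exact hA (Sum.inr ⟨(n, D), hex⟩) z w hw hd h0
      · refine (XN_mono lam _ ?_).trans (hXN r)
        exact max_le hsr (Nat.find_min' hex.2 hr)
  · intro i r hir hsr hr z w hz hw hd h0 v hv
    obtain ⟨z', rfl⟩ : ∃ z' : Fin (Nf i) → Qa, z = fun l => (z' l : ℂ) :=
      ⟨fun l => ⟨z l, mem_algebraicClosure_iff.2 (hz l)⟩, rfl⟩
    rw [hFs] at hw
    have hex : ∃ r, cS (nf i) (Nf i) ≤ μ r := ⟨r, hr⟩
    refine hA (Sum.inl ⟨i, hex⟩) z' w hw (hd.mono_right ?_) h0 v (FZ.rels_of hv)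
    refine (XN_mono lam _ ?_).trans (hXN r)
    exact max_le (max_le hir hsr) (Nat.find_min' hex hr)

end MP60829e.FG
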