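import Pool.Agent.Lib.MP_60829e_nt.FG.GenI
import Pool.Agent.Lib.MP_60829e_nt.FZ.StartE

/-! # Generic spaces of logarithms: all degrees, all numbers of variables, value zero -/

open MvPolynomial Module

namespace MP60829e.FG

open MP60829e.ST (Qa Lsp Lt)
open MP60829e.FC (Xr Gen)
open MP60829e.FQ (GoodP)
open MP60829e.FR (PT Rels)
open MP60829e.FZ (Q1Deg)

/-- Generic spaces of logarithms, all degrees and all numbers of variables; the exceptions are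
reduced to those of the finite-dimensional spaces. -/
theorem densI (μ : ℕ → ℕ) (hμ : Monotone μ) (s : ℕ) (lam : ℕ → ℂ)
    (halg : ∀ j, IsAlgebraic ℚ (Complex.exp (lam j))) (hli : LinearIndependent ℚ lam)
    (hspan : ∀ z : ℂ, IsAlgebraic ℚ (Complex.exp z) → z ∈ Submodule.span ℚ (Set.range lam))
    (nf Nf : ℕ → ℕ) (P : (i : ℕ) → MvPolynomial (Fin (Nf i) ⊕ Fin (nf i)) ℂ) :
    ∃ H : (r : ℕ) → (Fin r → ℕ → ℚ) → MvPolynomial (Fin (μ r)) ℚ, (∀ r y, H r y ≠ 0) ∧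
      ∀ Φ : ℂ →ₗ[ℚ] (ℕ → ℚ), (∀ j t, μ j ≤ t → Φ (lam j) t = 0) → (∀ j < s, Φ (lam j) = 0) →
      (∀ r, s ≤ r → eval (fun t : Fin (μ r) => Φ (lam r) t) (H r fun j => Φ (lam j)) ≠ 0) →
      ∀ F : Submodule ℚ ℂ, (∀ l : ℂ, l ∈ F ↔ IsAlgebraic ℚ (Complex.exp l) ∧ Φ l = 0) →
      ∀ r : ℕ, s ≤ r →
      r ≤ finrank ℚ (F ⊓ Submodule.span ℚ (lam '' Set.Iio r) : Submodule ℚ ℂ) + μ r ∧
      (∀ n D : ℕ, (n + D).choose n + n * (n - 1) + 1 ≤ μ r →
        finrank ℚ (F ⊓ Submodule.span ℚ (lam '' Set.Iio r) : Submodule ℚ ℂ) ≤ 1 ∨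
          Q1Deg n D (F ⊓ Submodule.span ℚ (lam '' Set.Iio r)) → Q1Deg n D F) ∧
      (∀ n D : ℕ, (n + D).choose n + n * (n - 1) + 1 ≤ μ r →
        ∀ g : MvPolynomial (Fin n) ℂ, (∀ a, IsAlgebraic ℚ (coeff a g)) → g.totalDegree ≤ D →
        ∀ w : Fin n → ℂ,
          (∀ j, w j ∈ Submodule.span (algebraicClosure ℚ ℂ) ({1} ∪ (F : Set ℂ))) →
          Disjoint (Submodule.span (algebraicClosure ℚ ℂ) ({1} ∪ Set.range w))
            (Submodule.span (algebraicClosure ℚ ℂ)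
              ((F ⊓ Submodule.span ℚ (lam '' Set.Iio r) : Submodule ℚ ℂ) : Set ℂ)) →
          eval w g = 0 →
            ∀ x : Fin n → ℂ, (∀ (q₀ : ℂ) (q : Fin n → ℂ), IsAlgebraic ℚ q₀ →
              (∀ j, IsAlgebraic ℚ (q j)) → q₀ + ∑ j, q j * w j = 0 → q₀ + ∑ j, q j * x j = 0) →
              eval x g = 0) ∧
      ∀ i : ℕ, i ≤ r → Nf i + nf i * (nf i - 1) + 1 ≤ μ r →
        ∀ (z : Fin (Nf i) → ℂ) (w : Fin (nf i) → ℂ), (∀ l, IsAlgebraic ℚ (z l)) →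
          (∀ j, w j ∈ Submodule.span (algebraicClosure ℚ ℂ) (F : Set ℂ)) →
          Disjoint (Submodule.span (algebraicClosure ℚ ℂ) (Set.range w))
            (Submodule.span (algebraicClosure ℚ ℂ)
              ((F ⊓ Submodule.span ℚ (lam '' Set.Iio r) : Submodule ℚ ℂ) : Set ℂ)) →
          eval (Sum.elim z w) (P i) = 0 →
            ∀ x : Fin (nf i) → ℂ, (∀ q : Fin (nf i) → ℂ, (∀ j, IsAlgebraic ℚ (q j)) →
              ∑ j, q j * w j = 0 → ∑ j, q j * x j = 0) → eval (Sum.elim z x) (P i) = 0 := by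
  classical
  -- the universal polynomials
  choose Un hUalg hU1 hU2 using fun p : ℕ × ℕ => FZ.exists_univC p.1 p.2
  -- the index types
  let I : Type := {p : ℕ × ℕ // p.1 ≤ p.2 ∧ s ≤ p.2 ∧ cS (nf p.1) (Nf p.1) ≤ μ p.2}
  let I1 : Type := {p : (ℕ × ℕ) × ℕ // 1 ≤ p.1.1 ∧ s ≤ p.2 ∧
    cS p.1.1 ((p.1.1 + p.1.2).choose p.1.1) ≤ μ p.2}
  obtain ⟨H, hH0, hH⟩ := genI (I := I ⊕ I1) hμ s lam halg hli hspan
    (Sum.elim (fun i : I => ⟨nf i.1.1, Nf i.1.1, P i.1.1⟩)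
      (fun p : I1 => ⟨p.1.1.1, (p.1.1.1 + p.1.1.2).choose p.1.1.1, Un p.1.1⟩))
    (Sum.elim (fun i : I => i.1.2) (fun p : I1 => p.1.2))
    (fun r => by
      have h1 : {i | Sum.elim (fun i : I => i.1.2) (fun p : I1 => p.1.2) i ≤ r} ⊆
          Sum.inl '' {i : I | i.1.2 ≤ r} ∪ Sum.inr '' {p : I1 | p.1.2 ≤ r} := by
        rintro (i | i) hi
        · exact Or.inl ⟨i, hi, rfl⟩
        · exact Or.inr ⟨i, hi, rfl⟩
      refine Set.Finite.subset (Set.Finite.union (Set.Finite.image _ ?_)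
        (Set.Finite.image _ ?_)) h1
      · refine Set.Finite.of_injOn (f := fun i : I => i.1) (t := Set.Iic r ×ˢ Set.Iic r) ?_
          (Subtype.val_injective.injOn) ((Set.finite_Iic _).prod (Set.finite_Iic _))
        intro i hi
        exact ⟨i.2.1.trans hi, hi⟩
      · refine Set.Finite.of_injOn (f := fun p : I1 => p.1)
          (t := (Set.Iic (μ r) ×ˢ Set.Iic (μ r)) ×ˢ Set.Iic r) ?_
          (Subtype.val_injective.injOn)
          (((Set.finite_Iic _).prod (Set.finite_Iic _)).prod (Set.finite_Iic _))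
        intro p hp
        have h2 : cS p.1.1.1 ((p.1.1.1 + p.1.1.2).choose p.1.1.1) ≤ μ r := p.2.2.2.trans (hμ hp)
        have h3 := FZ.le_of_choose p.2.1 ((N_le_cS p.1.1.1 _).trans h2)
        exact ⟨⟨(n_le_cS _ _).trans h2, Nat.le_of_lt_succ h3⟩, hp⟩)
    (by
      rintro (i | p)
      · exact i.2.2.1
      · exact p.2.2.1)
    (by
      rintro (i | p)
      · exact i.2.2.2
      · exact p.2.2.2)
  refine ⟨H, hH0, fun Φ hx1 hx2 hxH F hF r hsr => ?_⟩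
  have hx3 := hH (fun j => Φ (lam j)) Φ (fun _ => rfl) hx1 hx2 hxH
  have hFs : (F : Set ℂ) = {l : ℂ | IsAlgebraic ℚ (Complex.exp l) ∧ Φ l = 0} := by
    ext l
    exact hF l
  have hXN : XN lam (fun j => Φ (lam j)) r ≤ Submodule.span Qa
      ((F ⊓ Submodule.span ℚ (lam '' Set.Iio r) : Submodule ℚ ℂ) : Set ℂ) :=
    XN_le_span hμ lam halg _ hx1 Φ (fun _ => rfl) _ hF r
  refine ⟨codim_le hμ lam halg hli _ hx1 Φ (fun _ => rfl) _ hF r, fun n D hD hQ => ?_,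
    fun n D hr g hg hgD w hw hd h0 v hv => ?_, fun i hir hr z w hz hw hd h0 v hv => ?_⟩
  · rcases Nat.eq_zero_or_pos n with rfl | hn
    · intro g _ _ w _ h0 y _
      rw [Subsingleton.elim y w]
      exact h0
    · have hEalg : ∀ l ∈ (F ⊓ Submodule.span ℚ (lam '' Set.Iio r) : Submodule ℚ ℂ),
          IsAlgebraic ℚ (Complex.exp l) := fun l hl => ((hF l).1 hl.1).1
      have hfin : FiniteDimensional ℚ (F ⊓ Submodule.span ℚ (lam '' Set.Iio r) :
          Submodule ℚ ℂ) := by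
        have h1 : FiniteDimensional ℚ (Submodule.span ℚ (lam '' Set.Iio r)) :=
          FiniteDimensional.span_of_finite ℚ ((Set.finite_Iio r).image _)
        exact Submodule.finiteDimensional_of_le inf_le_right
      have hQ' : Q1Deg n D (F ⊓ Submodule.span ℚ (lam '' Set.Iio r)) := by
        rcases hQ with h | h
        · exact FZ.q1deg_one n D _ hEalg h
        · exact h
      refine FZ.q1deg_of (Un (n, D)) (hU1 (n, D)) _ ?_
      rw [hFs]
      refine (hx3 (Sum.inr ⟨((n, D), r), hn, hsr, hD⟩)).2 fun t => ?_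
      exact FZ.goodP_E (Un (n, D)) (hU2 (n, D)) hEalg hQ' hXN t.2
  · rcases Nat.eq_zero_or_pos n with rfl | hn
    · rw [Subsingleton.elim v w]
      exact h0
    · refine hull_of (Un (n, D)) (hU1 (n, D)) F (XN lam (fun j => Φ (lam j)) r)
        (fun z w hw hd h0 => ?_) g hg hgD w hw (hd.mono_right hXN) h0 v hv
      rw [hFs] at hw
      exact (hx3 (Sum.inr ⟨((n, D), r), hn, hsr, hr⟩)).1 z w hw hd h0
  · obtain ⟨z', rfl⟩ : ∃ z' : Fin (Nf i) → Qa, z = fun l => (z' l : ℂ) :=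
      ⟨fun l => ⟨z l, mem_algebraicClosure_iff.2 (hz l)⟩, rfl⟩
    rw [hFs] at hw
    exact (hx3 (Sum.inl ⟨(i, r), hir, hsr, hr⟩)).1 z' w hw (hd.mono_right hXN) h0 v
      (FZ.rels_of hv)

end MP60829e.FG
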