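import Pool.Agent.Lib.MP_60829e_nt.FC.Defs
import Pool.Agent.Lib.MP_60829e_nt.FC.Gen

/-! # A property which holds for all generic ultrafilters holds outside a hypersurface -/

open MvPolynomial Module

namespace MP60829e.FG

open MP60829e.ST (Qa Lsp Lt)
open MP60829e.FC (Gen)

/-- From the algebraic numbers to the rational numbers. -/
theorem exists_ratPoly {m : ℕ} (P : MvPolynomial (Fin m) Qa) (hP : P ≠ 0) :
    ∃ D : MvPolynomial (Fin m) ℚ, D ≠ 0 ∧
      ∀ a : Fin m → ℚ, eval a D ≠ 0 → eval (fun s => ((a s : ℚ) : Qa)) P ≠ 0 := by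
  classical
  obtain ⟨t, ht⟩ := MvPolynomial.ne_zero_iff.1 hP
  obtain ⟨φ, hφ⟩ : ∃ φ : Module.Dual ℚ Qa, φ (coeff t P) ≠ 0 := by
    by_contra hcon
    push Not at hcon
    exact ht ((Module.forall_dual_apply_eq_zero_iff ℚ (coeff t P)).1 hcon)
  refine ⟨∑ u ∈ P.support, monomial u (φ (coeff u P)), ?_, fun a ha h0 => ha ?_⟩
  · rw [MvPolynomial.ne_zero_iff]
    refine ⟨t, ?_⟩
    rw [coeff_sum, Finset.sum_eq_single t]
    · rw [coeff_monomial, if_pos rfl]
      exact hφ
    · intro u _ hu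
      rw [coeff_monomial, if_neg hu]
    · intro h
      exact absurd (MvPolynomial.mem_support_iff.2 ht) h
  · have h1 : φ (eval (fun s => ((a s : ℚ) : Qa)) P) =
        eval a (∑ u ∈ P.support, monomial u (φ (coeff u P))) := by
      rw [MvPolynomial.eval_eq, map_sum, map_sum]
      refine Finset.sum_congr rfl fun u _ => ?_
      rw [eval_monomial]
      have h2 : coeff u P * ∏ i ∈ u.support, ((a i : ℚ) : Qa) ^ u i =
          (∏ i ∈ u.support, a i ^ u i : ℚ) • coeff u P := by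
        rw [Algebra.smul_def, mul_comm]
        congr 1
        rw [map_prod]
        refine Finset.prod_congr rfl fun i _ => ?_
        rw [map_pow]
        rfl
      rw [h2, map_smul, smul_eq_mul, mul_comm]
      rfl
    rw [← h1, h0, map_zero]

/-- A property which holds for all generic ultrafilters holds outside a hypersurface. -/
theorem exists_poly {m : ℕ} (p : (Fin m → ℚ) → Prop)
    (h : ∀ U : Ultrafilter (Fin m → ℚ), Gen U → ∀ᶠ a in (U : Filter (Fin m → ℚ)), p a) :
    ∃ D : MvPolynomial (Fin m) ℚ, D ≠ 0 ∧ ∀ a, eval a D ≠ 0 → p a := by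
  by_contra hcon
  push Not at hcon
  obtain ⟨U, h1, h2⟩ := FC.exists_ultra (fun (a : Fin m → ℚ) (s : Fin m) => ((a s : ℚ) : Qa))
    {a | ¬ p a} (by
      intro P hP
      obtain ⟨D, hD, hDP⟩ := exists_ratPoly P hP
      obtain ⟨a, ha, hpa⟩ := hcon D hD
      exact ⟨a, hpa, hDP a ha⟩)
  obtain ⟨a, ha1, ha2⟩ := (h1.and (h U h2)).exists
  exact ha1 ha2

/-- The recursion without choices: all sequences outside the hypersurfaces `Z`. -/
theorem strategy {mu : ℕ → ℕ} (s : ℕ) (Inv : ℕ → ((j : ℕ) → Fin (mu j) → ℚ) → Prop)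
    (hcongr : ∀ r x y, (∀ j < r, x j = y j) → Inv r x → Inv r y)
    (h0 : ∀ x, (∀ j < s, x j = 0) → Inv s x)
    (hstep : ∀ r, s ≤ r → ∀ x, Inv r x → ∀ U : Ultrafilter (Fin (mu r) → ℚ), Gen U →
      ∀ᶠ a in (U : Filter (Fin (mu r) → ℚ)), Inv (r + 1) (Function.update x r a)) :
    ∃ Z : (r : ℕ) → ((j : ℕ) → Fin (mu j) → ℚ) → MvPolynomial (Fin (mu r)) ℚ,
      (∀ r x, Z r x ≠ 0) ∧ (∀ r x y, (∀ j < r, x j = y j) → Z r x = Z r y) ∧
        ∀ x, (∀ j < s, x j = 0) → (∀ r, s ≤ r → eval (x r) (Z r x) ≠ 0) →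
          ∀ r, s ≤ r → Inv r x := by
  classical
  have hex : ∀ (r : ℕ) (x : (j : ℕ) → Fin (mu j) → ℚ), ∃ D : MvPolynomial (Fin (mu r)) ℚ,
      D ≠ 0 ∧ (s ≤ r → Inv r x → ∀ a, eval a D ≠ 0 → Inv (r + 1) (Function.update x r a)) := by
    intro r x
    by_cases h : s ≤ r ∧ Inv r x
    · obtain ⟨D, hD, h1⟩ := exists_poly _ (hstep r h.1 x h.2)
      exact ⟨D, hD, fun _ _ => h1⟩
    · exact ⟨1, one_ne_zero, fun h1 h2 => absurd ⟨h1, h2⟩ h⟩
  choose Z0 hZ0 hZ using hex
  have htr : ∀ r (x : (j : ℕ) → Fin (mu j) → ℚ), ∀ j < r,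
      (fun j => if j < r then x j else 0 : (j : ℕ) → Fin (mu j) → ℚ) j = x j := by
    intro r x j hj
    dsimp only
    rw [if_pos hj]
  refine ⟨fun r x => Z0 r fun j => if j < r then x j else 0, fun r x => hZ0 _ _, ?_, ?_⟩
  · intro r x y h
    dsimp only
    congr 1
    funext j
    by_cases hj : j < r
    · rw [if_pos hj, if_pos hj, h j hj]
    · rw [if_neg hj, if_neg hj]
  · intro x hx hZx r hr
    induction r, hr using Nat.le_induction with
    | base => exact h0 x hx
    | succ r hr ih =>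
      have h1 : Inv r (fun j => if j < r then x j else 0) :=
        hcongr r x _ (fun j hj => (htr r x j hj).symm) ih
      have h2 := hZ r _ hr h1 (x r) (hZx r hr)
      refine hcongr (r + 1) _ x (fun j hj => ?_) h2
      rcases Nat.lt_succ_iff_lt_or_eq.1 hj with h | rfl
      · rw [Function.update_of_ne h.ne]
        exact htr r x j h
      · rw [Function.update_self]

end MP60829e.FG
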