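import Pool.Agent.Lib.MP_60829e_nt.FZ.Main

/-! # The two properties carried through the recursion, and the numbers of conditions -/

open MvPolynomial Module

namespace MP60829e.FG

open MP60829e.ST (Qa Lsp Lt)
open MP60829e.FC (Xr Gen)
open MP60829e.FQ (GoodP)
open MP60829e.FL (GoodL)
open MP60829e.FR (PT za kp Rels)
open MP60829e.FZ (A0)

/-- The number of conditions for the value zero. -/
def ca (n N : ℕ) : ℕ := N + n * (n + 2) + 1

/-- The number of conditions for values in `Lt`. -/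
def cb (n N : ℕ) : ℕ := N + (n + 2) ^ 2

theorem n_le_ca (n N : ℕ) : n ≤ ca n N := by
  unfold ca
  nlinarith

theorem N_le_ca (n N : ℕ) : N ≤ ca n N := by
  unfold ca
  omega

/-- The property for the value zero. -/
def GA {N n : ℕ} (P : MvPolynomial (Fin N ⊕ Fin n) ℂ) (X V : Submodule Qa ℂ) : Prop :=
  ∀ t : (Σ n' : Fin (n + 1), (Fin (n' : ℕ) ↪ Fin n)), GoodP (PT t.2 P) X V

/-- The property for values in `Lt`. -/
def GB {N n : ℕ} (P : MvPolynomial (Fin N ⊕ Fin n) ℂ) (X V : Submodule Qa ℂ) : Prop :=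
  ∀ t : (Σ n' : Fin (n + 1), (Fin (n' : ℕ) ↪ Fin n)), GoodL A0 (PT t.2 P) X V

theorem ga_base {N n : ℕ} (P : MvPolynomial (Fin N ⊕ Fin n) ℂ) (X : Submodule Qa ℂ) :
    GA P X X := fun _ => FQ.goodP_base _ _

theorem gb_base {N n : ℕ} (P : MvPolynomial (Fin N ⊕ Fin n) ℂ)
    (hP : ∀ a, IsAlgebraic ℚ (coeff a P)) (X : Submodule Qa ℂ) : GB P X X := fun t =>
  FL.goodL_base A0 _ (FL.algVal_of_coeff fun a => FZ.mem_A0.2 (FZ.PT_alg t.2 P hP a)) X

theorem ga_step {N n m r : ℕ} (hm : ca n N ≤ m) (lam : ℕ → ℂ)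
    (hlam : LinearIndependent Qa lam) (hlog : ∀ j, lam j ∈ Lsp) (x : ℕ → Fin m → ℚ)
    (U : Ultrafilter (Fin m → ℚ)) (hU : Gen U) (P : MvPolynomial (Fin N ⊕ Fin n) ℂ)
    (V : Submodule Qa ℂ) (h : GA P (Xr lam x r) V) :
    ∀ᶠ a in (U : Filter (Fin m → ℚ)), GA P (Xr lam (Function.update x r a) (r + 1)) V := by
  classical
  unfold GA
  rw [Filter.eventually_all]
  intro t
  refine FQ.goodP_step ?_ lam hlam hlog x U hU (PT t.2 P) V (h t)
  rw [FR.kp_eq]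
  exact FR.arith (FR.le_of_emb t.2) hm

theorem gb_step {N n m r : ℕ} (hm : cb n N ≤ m) (lam : ℕ → ℂ)
    (hlam : LinearIndependent Qa lam) (hlog : ∀ j, lam j ∈ Lsp) (x : ℕ → Fin m → ℚ)
    (U : Ultrafilter (Fin m → ℚ)) (hU : Gen U) (P : MvPolynomial (Fin N ⊕ Fin n) ℂ)
    (V : Submodule Qa ℂ) (h : GB P (Xr lam x r) V) :
    ∀ᶠ a in (U : Filter (Fin m → ℚ)), GB P (Xr lam (Function.update x r a) (r + 1)) V := by
  classical
  unfold GB
  rw [Filter.eventually_all]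
  intro t
  refine FL.goodL_step ?_ lam hlam hlog x U hU A0 (PT t.2 P)
    (Submodule.subset_span rfl) V (h t)
  rw [FR.kp_eq]
  exact FZ.arithL (FR.le_of_emb t.2) hm

theorem ga_main {N n : ℕ} {P : MvPolynomial (Fin N ⊕ Fin n) ℂ} {X V : Submodule Qa ℂ}
    (h : GA P X V) (z : Fin N → Qa) (w : Fin n → ℂ) (hw : ∀ j, w j ∈ X)
    (hd : Disjoint (Submodule.span Qa (Set.range w)) V)
    (h0 : eval (Sum.elim (fun l => (z l : ℂ)) w) P = 0) (x : Fin n → ℂ) (hx : Rels w x) :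
    eval (Sum.elim (fun l => (z l : ℂ)) x) P = 0 :=
  FR.dep_main (fun n' ι => h ⟨⟨n', by have := FR.le_of_emb ι; omega⟩, ι⟩) z w hw hd h0 x hx

theorem gb_main {N n : ℕ} {P : MvPolynomial (Fin N ⊕ Fin n) ℂ} {X V : Submodule Qa ℂ}
    (h : GB P X V) (hX : X ≤ Lsp) (z : Fin N → Qa) (w : Fin n → ℂ) (hw : ∀ j, w j ∈ X)
    (hd : Disjoint (Submodule.span Qa (Set.range w)) V)
    (h0 : eval (Sum.elim (fun l => (z l : ℂ)) w) P ∈ Lt) :
    ∃ (b : Qa) (α : Fin n → Qa), ∀ x : Fin n → ℂ, Rels w x →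
      eval (Sum.elim (fun l => (z l : ℂ)) x) P = (b : ℂ) + ∑ j, (α j : ℂ) * x j := by
  obtain ⟨a, ha, α, hα⟩ := FZ.depL_main
    (fun n' ι => h ⟨⟨n', by have := FR.le_of_emb ι; omega⟩, ι⟩) z w hw hd
    (FZ.disjoint_A0 w fun j => hX (hw j)) h0
  exact ⟨⟨a, mem_algebraicClosure_iff.2 (FZ.mem_A0.1 ha)⟩, α, hα⟩

end MP60829e.FG
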