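import Pool.Agent.Lib.MP_60829e_nt.FG.Rec
import Pool.Agent.Lib.MP_60829e_nt.FG.Step

/-! # The general theorem with a growing number of conditions -/

open MvPolynomial Module

namespace MP60829e.FG

open MP60829e.ST (Qa Lsp Lt)
open MP60829e.FC (Xr Gen)
open MP60829e.FQ (GoodP)
open MP60829e.FR (PT Rels)

theorem XN_le_Lsp (lam : ℕ → ℂ) (hlog : ∀ j, lam j ∈ Lsp) (x : ℕ → ℕ → ℚ) (r : ℕ) :
    XN lam x r ≤ Lsp := by
  rintro z ⟨c, -, rfl⟩
  exact Submodule.sum_mem _ fun j _ => Submodule.smul_mem _ _ (hlog j)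

/-- A family of polynomials in `n` variables with `N` parameters. -/
structure Fam where
  /-- the number of variables -/
  n : ℕ
  /-- the number of parameters -/
  N : ℕ
  /-- the polynomial -/
  P : MvPolynomial (Fin N ⊕ Fin n) ℂ

/-- The general theorem: families `P i` (value zero), families `P' i` with algebraic coefficients
(values in `Lt`), families `R j` without exceptions. -/
theorem gen {I I' J : Type} [Finite J] {μ : ℕ → ℕ} (hμ : Monotone μ) (s : ℕ) (lam : ℕ → ℂ)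
    (halg : ∀ j, IsAlgebraic ℚ (Complex.exp (lam j))) (hli : LinearIndependent ℚ lam)
    (hspan : ∀ z : ℂ, IsAlgebraic ℚ (Complex.exp z) → z ∈ Submodule.span ℚ (Set.range lam))
    (P : I → Fam) (ρ : I → ℕ)
    (hfin : ∀ r, {i | ρ i ≤ r}.Finite) (hs : ∀ i, s ≤ ρ i)
    (hb : ∀ i, ca (P i).n (P i).N ≤ μ (ρ i))
    (P' : I' → Fam)
    (hP' : ∀ i a, IsAlgebraic ℚ (coeff a (P' i).P)) (ρ' : I' → ℕ)
    (hfin' : ∀ r, {i | ρ' i ≤ r}.Finite) (hs' : ∀ i, s ≤ ρ' i)
    (hb' : ∀ i, cb (P' i).n (P' i).N ≤ μ (ρ' i))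
    (R : J → Fam) (hbj : ∀ j, ca (R j).n (R j).N ≤ μ s) :
    ∃ (x : ℕ → ℕ → ℚ) (Φ : ℂ →ₗ[ℚ] (ℕ → ℚ)), (∀ j, Φ (lam j) = x j) ∧
      (∀ j t, μ j ≤ t → x j t = 0) ∧ (∀ j < s, x j = 0) ∧
      (∀ j : J, (∀ (n' : ℕ) (ι : Fin n' ↪ Fin (R j).n),
          GoodP (PT ι (R j).P) (XN lam 0 s) ⊥) →
        ∀ (z : Fin (R j).N → Qa) (w : Fin (R j).n → ℂ),
          (∀ j, w j ∈ Submodule.span Qa {l : ℂ | IsAlgebraic ℚ (Complex.exp l) ∧ Φ l = 0}) →
          eval (Sum.elim (fun l => (z l : ℂ)) w) (R j).P = 0 →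
          ∀ x : Fin (R j).n → ℂ, Rels w x →
            eval (Sum.elim (fun l => (z l : ℂ)) x) (R j).P = 0) ∧
      (∀ (i : I) (z : Fin (P i).N → Qa) (w : Fin (P i).n → ℂ),
        (∀ j, w j ∈ Submodule.span Qa {l : ℂ | IsAlgebraic ℚ (Complex.exp l) ∧ Φ l = 0}) →
        Disjoint (Submodule.span Qa (Set.range w)) (XN lam x (ρ i)) →
        eval (Sum.elim (fun l => (z l : ℂ)) w) (P i).P = 0 →
        ∀ x : Fin (P i).n → ℂ, Rels w x →
          eval (Sum.elim (fun l => (z l : ℂ)) x) (P i).P = 0) ∧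
      ∀ (i : I') (z : Fin (P' i).N → Qa) (w : Fin (P' i).n → ℂ),
        (∀ j, w j ∈ Submodule.span Qa {l : ℂ | IsAlgebraic ℚ (Complex.exp l) ∧ Φ l = 0}) →
        Disjoint (Submodule.span Qa (Set.range w)) (XN lam x (ρ' i)) →
        eval (Sum.elim (fun l => (z l : ℂ)) w) (P' i).P ∈ Lt →
        ∃ (b : Qa) (α : Fin (P' i).n → Qa), ∀ x : Fin (P' i).n → ℂ, Rels w x →
          eval (Sum.elim (fun l => (z l : ℂ)) x) (P' i).P = (b : ℂ) + ∑ j, (α j : ℂ) * x j := by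
  classical
  have hlam := FC.baker lam halg hli
  have hlog : ∀ j, lam j ∈ Lsp := fun j => Submodule.subset_span (halg j)
  let G : I ⊕ (I' ⊕ J) → Submodule Qa ℂ → Submodule Qa ℂ → Prop := fun i X V =>
    Sum.elim (fun i => GA (P i).P X V) (Sum.elim (fun i => GB (P' i).P X V) (fun j =>
      (∀ (n' : ℕ) (ι : Fin n' ↪ Fin (R j).n), GoodP (PT ι (R j).P) (XN lam 0 s) ⊥) →
        GA (R j).P X ⊥)) i
  let ρρ : I ⊕ (I' ⊕ J) → ℕ := Sum.elim ρ (Sum.elim ρ' fun _ => s)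
  obtain ⟨x, hx1, hx2, hx3⟩ := exists_x hμ s lam G ρρ (fun r => by
      have h1 : {i | ρρ i ≤ r} ⊆ Sum.inl '' {i | ρ i ≤ r} ∪
          Sum.inr '' (Sum.inl '' {i | ρ' i ≤ r} ∪ Sum.inr '' (Set.univ : Set J)) := by
        rintro (i | i | j) hi
        · exact Or.inl ⟨i, hi, rfl⟩
        · exact Or.inr ⟨_, Or.inl ⟨i, hi, rfl⟩, rfl⟩
        · exact Or.inr ⟨_, Or.inr ⟨j, Set.mem_univ j, rfl⟩, rfl⟩
      exact Set.Finite.subset (((hfin r).image _).union ((((hfin' r).image _).union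
        ((Set.toFinite _).image _)).image _)) h1)
    (by
      rintro (i | i | j)
      · exact hs i
      · exact hs' i
      · exact le_refl s)
    (by
      rintro (i | i | j) x hx
      · exact ga_base _ _
      · exact gb_base _ (hP' i) _
      · have h1 : XN lam x s = XN lam 0 s := XN_congr lam fun j hj => hx j hj
        show (∀ (n' : ℕ) (ι : Fin n' ↪ Fin (R j).n), GoodP (PT ι (R j).P) (XN lam 0 s) ⊥) →
          GA (R j).P (XN lam x s) ⊥
        intro h t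
        rw [h1]
        exact h _ t.2)
    (by
      rintro (i | i | j) r hr x U hU V h
      · exact ga_step ((hb i).trans (hμ hr)) lam hlam hlog x U hU (P i).P V h
      · exact gb_step ((hb' i).trans (hμ hr)) lam hlam hlog x U hU (P' i).P V h
      · have h1 : (∀ (n' : ℕ) (ι : Fin n' ↪ Fin (R j).n),
            GoodP (PT ι (R j).P) (XN lam 0 s) ⊥) → GA (R j).P (Xr lam x r) ⊥ := h
        show ∀ᶠ a in (U : Filter (Fin (μ r) → ℚ)),
          ((∀ (n' : ℕ) (ι : Fin n' ↪ Fin (R j).n), GoodP (PT ι (R j).P) (XN lam 0 s) ⊥) →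
            GA (R j).P (Xr lam (Function.update x r a) (r + 1)) ⊥)
        rw [Filter.eventually_imp_distrib_left]
        intro h2
        exact ga_step ((hbj j).trans (hμ hr)) lam hlam hlog x U hU (R j).P ⊥ (h1 h2))
  obtain ⟨Φ, hΦ⟩ := exists_Phi lam hli x
  refine ⟨x, Φ, hΦ, hx1, hx2, fun j hH z w hw h0 v hv => ?_, fun i z w hw hd h0 v hv => ?_,
    fun i z w hw hd h0 => ?_⟩
  · obtain ⟨r, hr⟩ := exists_r lam x hspan Φ hΦ w hw
    have h1 : GA (R j).P (XN lam x (max r s)) ⊥ :=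
      hx3 (Sum.inr (Sum.inr j)) (max r s) (le_max_right r s) hH
    exact ga_main h1 z w (fun j => XN_mono lam x (le_max_left r s) (hr j)) disjoint_bot_right
      h0 v hv
  · obtain ⟨r, hr⟩ := exists_r lam x hspan Φ hΦ w hw
    have h1 : GA (P i).P (XN lam x (max r (ρ i))) (XN lam x (ρ i)) :=
      hx3 (Sum.inl i) (max r (ρ i)) (le_max_right r _)
    exact ga_main h1 z w (fun j => XN_mono lam x (le_max_left r _) (hr j)) hd h0 v hv
  · obtain ⟨r, hr⟩ := exists_r lam x hspan Φ hΦ w hw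
    have h1 : GB (P' i).P (XN lam x (max r (ρ' i))) (XN lam x (ρ' i)) :=
      hx3 (Sum.inr (Sum.inl i)) (max r (ρ' i)) (le_max_right r _)
    exact gb_main h1 (XN_le_Lsp lam hlog x _) z w
      (fun j => XN_mono lam x (le_max_left r _) (hr j)) hd h0

end MP60829e.FG
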