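import Pool.Agent.Lib.MP_60829e_nt.FG.Rec
import Pool.Agent.Lib.MP_60829e_nt.FS.Good
import Pool.Agent.Lib.MP_60829e_nt.FR.Main

/-! # The general theorem with a growing number of conditions, value zero -/

open MvPolynomial Module

namespace MP60829e.FG

open MP60829e.ST (Qa Lsp Lt)
open MP60829e.FC (Xr Gen)
open MP60829e.FQ (GoodP)
open MP60829e.FR (PT Rels)

/-- The number of conditions. -/
def cS (n N : ℕ) : ℕ := N + n * (n - 1) + 1

theorem n_le_cS (n N : ℕ) : n ≤ cS n N := by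
  unfold cS
  rcases n with _ | _ | n
  · omega
  · omega
  · have h : (n + 1 + 1) * (n + 1 + 1 - 1) = (n + 2) * (n + 1) := rfl
    rw [h]
    nlinarith [Nat.zero_le (n * n)]

theorem N_le_cS (n N : ℕ) : N ≤ cS n N := by
  unfold cS
  omega

/-- A family of polynomials in `n` variables with `N` parameters. -/
structure FamA where
  /-- the number of variables -/
  n : ℕ
  /-- the number of parameters -/
  N : ℕ
  /-- the polynomial -/
  P : MvPolynomial (Fin N ⊕ Fin n) ℂ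

/-- The property carried through the recursion. -/
def GS {N n : ℕ} (P : MvPolynomial (Fin N ⊕ Fin n) ℂ) (X V : Submodule Qa ℂ) : Prop :=
  ∀ t : (Σ n' : Fin (n + 1), (Fin (n' : ℕ) ↪ Fin n)), GoodP (PT t.2 P) X V

theorem gs_base {N n : ℕ} (P : MvPolynomial (Fin N ⊕ Fin n) ℂ) (X : Submodule Qa ℂ) :
    GS P X X := fun _ => FQ.goodP_base _ _

theorem gs_step {N n m r : ℕ} (hm : cS n N ≤ m) (lam : ℕ → ℂ)
    (hlam : LinearIndependent Qa lam) (hlog : ∀ j, lam j ∈ Lsp) (x : ℕ → Fin m → ℚ)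
    (U : Ultrafilter (Fin m → ℚ)) (hU : Gen U) (P : MvPolynomial (Fin N ⊕ Fin n) ℂ)
    (V : Submodule Qa ℂ) (h : GS P (Xr lam x r) V) :
    ∀ᶠ a in (U : Filter (Fin m → ℚ)), GS P (Xr lam (Function.update x r a) (r + 1)) V := by
  classical
  unfold GS
  rw [Filter.eventually_all]
  intro t
  exact FS.goodP_stepS (FS.arith_S t.2 hm) lam hlam hlog x U hU (PT t.2 P) V (h t)

theorem gs_main {N n : ℕ} {P : MvPolynomial (Fin N ⊕ Fin n) ℂ} {X V : Submodule Qa ℂ}
    (h : GS P X V) (z : Fin N → Qa) (w : Fin n → ℂ) (hw : ∀ j, w j ∈ X)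
    (hd : Disjoint (Submodule.span Qa (Set.range w)) V)
    (h0 : eval (Sum.elim (fun l => (z l : ℂ)) w) P = 0) (x : Fin n → ℂ) (hx : Rels w x) :
    eval (Sum.elim (fun l => (z l : ℂ)) x) P = 0 :=
  FR.dep_main (fun n' ι => h ⟨⟨n', by have := FR.le_of_emb ι; omega⟩, ι⟩) z w hw hd h0 x hx

/-- The general theorem: families `P i`, and families `R j` without exceptions. -/
theorem genA {I J : Type} [Finite J] {μ : ℕ → ℕ} (hμ : Monotone μ) (s : ℕ) (lam : ℕ → ℂ)
    (halg : ∀ j, IsAlgebraic ℚ (Complex.exp (lam j))) (hli : LinearIndependent ℚ lam)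
    (hspan : ∀ z : ℂ, IsAlgebraic ℚ (Complex.exp z) → z ∈ Submodule.span ℚ (Set.range lam))
    (P : I → FamA) (ρ : I → ℕ)
    (hfin : ∀ r, {i | ρ i ≤ r}.Finite) (hs : ∀ i, s ≤ ρ i)
    (hb : ∀ i, cS (P i).n (P i).N ≤ μ (ρ i))
    (R : J → FamA) (hbj : ∀ j, cS (R j).n (R j).N ≤ μ s) :
    ∃ (x : ℕ → ℕ → ℚ) (Φ : ℂ →ₗ[ℚ] (ℕ → ℚ)), (∀ j, Φ (lam j) = x j) ∧
      (∀ j t, μ j ≤ t → x j t = 0) ∧ (∀ j < s, x j = 0) ∧
      (∀ j : J, (∀ (n' : ℕ) (ι : Fin n' ↪ Fin (R j).n),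
          GoodP (PT ι (R j).P) (XN lam 0 s) ⊥) →
        ∀ (z : Fin (R j).N → Qa) (w : Fin (R j).n → ℂ),
          (∀ j, w j ∈ Submodule.span Qa {l : ℂ | IsAlgebraic ℚ (Complex.exp l) ∧ Φ l = 0}) →
          eval (Sum.elim (fun l => (z l : ℂ)) w) (R j).P = 0 →
          ∀ x : Fin (R j).n → ℂ, Rels w x →
            eval (Sum.elim (fun l => (z l : ℂ)) x) (R j).P = 0) ∧
      ∀ (i : I) (z : Fin (P i).N → Qa) (w : Fin (P i).n → ℂ),
        (∀ j, w j ∈ Submodule.span Qa {l : ℂ | IsAlgebraic ℚ (Complex.exp l) ∧ Φ l = 0}) →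
        Disjoint (Submodule.span Qa (Set.range w)) (XN lam x (ρ i)) →
        eval (Sum.elim (fun l => (z l : ℂ)) w) (P i).P = 0 →
        ∀ x : Fin (P i).n → ℂ, Rels w x →
          eval (Sum.elim (fun l => (z l : ℂ)) x) (P i).P = 0 := by
  classical
  have hlam := FC.baker lam halg hli
  have hlog : ∀ j, lam j ∈ Lsp := fun j => Submodule.subset_span (halg j)
  let G : I ⊕ J → Submodule Qa ℂ → Submodule Qa ℂ → Prop := fun i X V =>
    Sum.elim (fun i => GS (P i).P X V) (fun j =>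
      (∀ (n' : ℕ) (ι : Fin n' ↪ Fin (R j).n), GoodP (PT ι (R j).P) (XN lam 0 s) ⊥) →
        GS (R j).P X ⊥) i
  let ρρ : I ⊕ J → ℕ := Sum.elim ρ fun _ => s
  obtain ⟨x, hx1, hx2, hx3⟩ := exists_x hμ s lam G ρρ (fun r => by
      have h1 : {i | ρρ i ≤ r} ⊆ Sum.inl '' {i | ρ i ≤ r} ∪
          Sum.inr '' (Set.univ : Set J) := by
        rintro (i | j) hi
        · exact Or.inl ⟨i, hi, rfl⟩
        · exact Or.inr ⟨j, Set.mem_univ j, rfl⟩
      exact Set.Finite.subset (((hfin r).image _).union ((Set.toFinite _).image _)) h1)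
    (by
      rintro (i | j)
      · exact hs i
      · exact le_refl s)
    (by
      rintro (i | j) x hx
      · exact gs_base _ _
      · have h1 : XN lam x s = XN lam 0 s := XN_congr lam fun j hj => hx j hj
        show (∀ (n' : ℕ) (ι : Fin n' ↪ Fin (R j).n), GoodP (PT ι (R j).P) (XN lam 0 s) ⊥) →
          GS (R j).P (XN lam x s) ⊥
        intro h t
        rw [h1]
        exact h _ t.2)
    (by
      rintro (i | j) r hr x U hU V h
      · exact gs_step ((hb i).trans (hμ hr)) lam hlam hlog x U hU (P i).P V h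
      · have h1 : (∀ (n' : ℕ) (ι : Fin n' ↪ Fin (R j).n),
            GoodP (PT ι (R j).P) (XN lam 0 s) ⊥) → GS (R j).P (Xr lam x r) ⊥ := h
        show ∀ᶠ a in (U : Filter (Fin (μ r) → ℚ)),
          ((∀ (n' : ℕ) (ι : Fin n' ↪ Fin (R j).n), GoodP (PT ι (R j).P) (XN lam 0 s) ⊥) →
            GS (R j).P (Xr lam (Function.update x r a) (r + 1)) ⊥)
        rw [Filter.eventually_imp_distrib_left]
        intro h2
        exact gs_step ((hbj j).trans (hμ hr)) lam hlam hlog x U hU (R j).P ⊥ (h1 h2))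
  obtain ⟨Φ, hΦ⟩ := exists_Phi lam hli x
  refine ⟨x, Φ, hΦ, hx1, hx2, fun j hH z w hw h0 v hv => ?_, fun i z w hw hd h0 v hv => ?_⟩
  · obtain ⟨r, hr⟩ := exists_r lam x hspan Φ hΦ w hw
    have h1 : GS (R j).P (XN lam x (max r s)) ⊥ :=
      hx3 (Sum.inr j) (max r s) (le_max_right r s) hH
    exact gs_main h1 z w (fun j => XN_mono lam x (le_max_left r s) (hr j)) disjoint_bot_right
      h0 v hv
  · obtain ⟨r, hr⟩ := exists_r lam x hspan Φ hΦ w hw
    have h1 : GS (P i).P (XN lam x (max r (ρ i))) (XN lam x (ρ i)) :=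
      hx3 (Sum.inl i) (max r (ρ i)) (le_max_right r _)
    exact gs_main h1 z w (fun j => XN_mono lam x (le_max_left r _) (hr j)) hd h0 v hv

/-- The codimension of the kernel in the span of the first `r` logarithms. -/
theorem codim_le {μ : ℕ → ℕ} (hμ : Monotone μ) (lam : ℕ → ℂ)
    (halg : ∀ j, IsAlgebraic ℚ (Complex.exp (lam j))) (hli : LinearIndependent ℚ lam)
    (x : ℕ → ℕ → ℚ) (hx : ∀ j t, μ j ≤ t → x j t = 0) (Φ : ℂ →ₗ[ℚ] (ℕ → ℚ))
    (hΦ : ∀ j, Φ (lam j) = x j) (F : Submodule ℚ ℂ)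
    (hF : ∀ l : ℂ, l ∈ F ↔ IsAlgebraic ℚ (Complex.exp l) ∧ Φ l = 0) (r : ℕ) :
    r ≤ finrank ℚ (F ⊓ Submodule.span ℚ (lam '' Set.Iio r) : Submodule ℚ ℂ) + μ r := by
  classical
  obtain ⟨S, hS⟩ : ∃ S : Submodule ℚ ℂ, S = Submodule.span ℚ (lam '' Set.Iio r) := ⟨_, rfl⟩
  rw [← hS]
  have hfin : FiniteDimensional ℚ S := by
    rw [hS]
    exact FiniteDimensional.span_of_finite ℚ ((Set.finite_Iio r).image _)
  have hSr : finrank ℚ S = r := by
    have h1 : LinearIndependent ℚ (fun j : Fin r => lam j) :=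
      hli.comp (fun j : Fin r => (j : ℕ)) Fin.val_injective
    have h2 := finrank_span_eq_card h1
    rw [Fintype.card_fin] at h2
    have h3 : lam '' Set.Iio r = Set.range fun j : Fin r => lam j := by
      ext z
      constructor
      · rintro ⟨j, hj, rfl⟩
        exact ⟨⟨j, hj⟩, rfl⟩
      · rintro ⟨j, rfl⟩
        exact ⟨j, j.2, rfl⟩
    rw [hS, h3]
    exact h2
  have hSF : ∀ l ∈ S, IsAlgebraic ℚ (Complex.exp l) := by
    intro l hl
    have h1 : S ≤ SE.Lg := by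
      rw [hS, Submodule.span_le]
      rintro _ ⟨j, -, rfl⟩
      exact halg j
    exact h1 hl
  have hSt : ∀ l ∈ S, ∀ t, μ r ≤ t → Φ l t = 0 := by
    intro l hl t ht
    rw [hS] at hl
    induction hl using Submodule.span_induction with
    | mem l hl =>
      obtain ⟨j, hj, rfl⟩ := hl
      rw [hΦ]
      exact hx j t ((hμ (le_of_lt hj)).trans ht)
    | zero => rw [map_zero]; rfl
    | add l l' _ _ h1 h2 => rw [map_add, Pi.add_apply, h1, h2, add_zero]
    | smul q l _ h1 => rw [map_smul, Pi.smul_apply, h1, smul_zero]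
  let Ψ : S →ₗ[ℚ] (Fin (μ r) → ℚ) :=
    { toFun := fun l t => Φ l t
      map_add' := fun l l' => by
        funext t
        simp only [Submodule.coe_add, map_add, Pi.add_apply]
      map_smul' := fun q l => by
        funext t
        simp only [Submodule.coe_smul_of_tower, map_smul, Pi.smul_apply, RingHom.id_apply] }
  have h1 := LinearMap.finrank_range_add_finrank_ker Ψ
  have h2 : finrank ℚ (LinearMap.range Ψ) ≤ μ r := by
    have := Submodule.finrank_le (LinearMap.range Ψ)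
    rwa [finrank_fin_fun] at this
  have hfin2 : FiniteDimensional ℚ (F ⊓ S : Submodule ℚ ℂ) :=
    Submodule.finiteDimensional_of_le inf_le_right
  have h3 : finrank ℚ (LinearMap.ker Ψ) ≤ finrank ℚ (F ⊓ S : Submodule ℚ ℂ) := by
    have h4 : ∀ l : LinearMap.ker Ψ, ((l : S) : ℂ) ∈ F ⊓ S := by
      intro l
      refine ⟨(hF _).2 ⟨hSF _ (l : S).2, ?_⟩, (l : S).2⟩
      funext t
      rcases Nat.lt_or_ge t (μ r) with ht | ht
      · exact congrFun (LinearMap.mem_ker.1 l.2) ⟨t, ht⟩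
      · exact hSt _ (l : S).2 t ht
    let g : LinearMap.ker Ψ →ₗ[ℚ] (F ⊓ S : Submodule ℚ ℂ) :=
      (S.subtype ∘ₗ (LinearMap.ker Ψ).subtype).codRestrict (F ⊓ S) h4
    refine LinearMap.finrank_le_finrank_of_injective (f := g) ?_
    intro l l' hll
    have h5 : ((l : S) : ℂ) = ((l' : S) : ℂ) :=
      congrArg (fun v : (F ⊓ S : Submodule ℚ ℂ) => (v : ℂ)) hll
    exact Subtype.ext (Subtype.ext h5)
  omega

end MP60829e.FG
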