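import Pool.Agent.Lib.MP_60829e_nt.FG.DensA
import Pool.Agent.Lib.MP_60829e_nt.FG.Hyp

/-! # The general theorem for generic functionals, with the exceptions reduced to those of the
finite-dimensional spaces -/

open MvPolynomial Module

namespace MP60829e.FG

open MP60829e.ST (Qa Lsp Lt)
open MP60829e.FC (Xr Gen)
open MP60829e.FQ (GoodP)
open MP60829e.FR (PT Rels)

/-- The general theorem for generic functionals. -/
theorem genI {I : Type} {μ : ℕ → ℕ} (hμ : Monotone μ) (s : ℕ) (lam : ℕ → ℂ)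
    (halg : ∀ j, IsAlgebraic ℚ (Complex.exp (lam j))) (hli : LinearIndependent ℚ lam)
    (hspan : ∀ z : ℂ, IsAlgebraic ℚ (Complex.exp z) → z ∈ Submodule.span ℚ (Set.range lam))
    (P : I → FamA) (ρ : I → ℕ)
    (hfin : ∀ r, {i | ρ i ≤ r}.Finite) (hs : ∀ i, s ≤ ρ i)
    (hb : ∀ i, cS (P i).n (P i).N ≤ μ (ρ i)) :
    ∃ H : (r : ℕ) → (Fin r → ℕ → ℚ) → MvPolynomial (Fin (μ r)) ℚ, (∀ r y, H r y ≠ 0) ∧
      ∀ (x : ℕ → ℕ → ℚ) (Φ : ℂ →ₗ[ℚ] (ℕ → ℚ)), (∀ j, Φ (lam j) = x j) →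
      (∀ j t, μ j ≤ t → x j t = 0) → (∀ j < s, x j = 0) →
      (∀ r, s ≤ r → eval (fun t : Fin (μ r) => x r t) (H r fun j => x j) ≠ 0) →
      ∀ i : I,
        (∀ (z : Fin (P i).N → Qa) (w : Fin (P i).n → ℂ),
          (∀ j, w j ∈ Submodule.span Qa {l : ℂ | IsAlgebraic ℚ (Complex.exp l) ∧ Φ l = 0}) →
          Disjoint (Submodule.span Qa (Set.range w)) (XN lam x (ρ i)) →
          eval (Sum.elim (fun l => (z l : ℂ)) w) (P i).P = 0 →
          ∀ x : Fin (P i).n → ℂ, Rels w x →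
            eval (Sum.elim (fun l => (z l : ℂ)) x) (P i).P = 0) ∧
        (GS (P i).P (XN lam x (ρ i)) ⊥ → ∀ (z : Fin (P i).N → Qa) (w : Fin (P i).n → ℂ),
          (∀ j, w j ∈ Submodule.span Qa {l : ℂ | IsAlgebraic ℚ (Complex.exp l) ∧ Φ l = 0}) →
          eval (Sum.elim (fun l => (z l : ℂ)) w) (P i).P = 0 →
          ∀ x : Fin (P i).n → ℂ, Rels w x →
            eval (Sum.elim (fun l => (z l : ℂ)) x) (P i).P = 0) := by
  classical
  have hlam := FC.baker lam halg hli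
  have hlog : ∀ j, lam j ∈ Lsp := fun j => Submodule.subset_span (halg j)
  obtain ⟨H, hH0, hH⟩ := exists_H hμ s lam
    (fun i X V => GS (P i).P X V ∧ (GS (P i).P V ⊥ → GS (P i).P X ⊥)) ρ hfin hs
    (fun i x _ => ⟨gs_base _ _, id⟩)
    (by
      intro i r hr x U hU V h
      have h1 := gs_step ((hb i).trans (hμ hr)) lam hlam hlog x U hU (P i).P V h.1
      by_cases h2 : GS (P i).P V ⊥
      · have h3 := gs_step ((hb i).trans (hμ hr)) lam hlam hlog x U hU (P i).P ⊥ (h.2 h2)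
        filter_upwards [h1, h3] with a ha ha'
        exact ⟨ha, fun _ => ha'⟩
      · filter_upwards [h1] with a ha
        exact ⟨ha, fun h' => absurd h' h2⟩)
  refine ⟨H, hH0, fun x Φ hΦ hx1 hx2 hxH i => ?_⟩
  have hx3 := hH x hx1 hx2 hxH
  refine ⟨fun z w hw hd h0 v hv => ?_, fun hG z w hw h0 v hv => ?_⟩
  · obtain ⟨r, hr⟩ := exists_r lam x hspan Φ hΦ w hw
    have h1 := (hx3 i (max r (ρ i)) (le_max_right r _)).1
    exact gs_main h1 z w (fun j => XN_mono lam x (le_max_left r _) (hr j)) hd h0 v hv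
  · obtain ⟨r, hr⟩ := exists_r lam x hspan Φ hΦ w hw
    have h1 := (hx3 i (max r (ρ i)) (le_max_right r _)).2 hG
    exact gs_main h1 z w (fun j => XN_mono lam x (le_max_left r _) (hr j)) disjoint_bot_right
      h0 v hv

end MP60829e.FG
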