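import Pool.Agent.Lib.MP_60829e_nt.FQ.Final

/-! # The recursion with a growing number of conditions -/

open MvPolynomial Module

namespace MP60829e.FG

open MP60829e.ST (Qa Lsp Lt)
open MP60829e.FC (Xr Gen)
open MP60829e.FQ (XQ)

/-- The first `m` coordinates. -/
def res (m : ℕ) (x : ℕ → ℕ → ℚ) : ℕ → Fin m → ℚ := fun j t => x j t

/-- Extension by zero. -/
def pad {m : ℕ} (a : Fin m → ℚ) (t : ℕ) : ℚ := if h : t < m then a ⟨t, h⟩ else 0

theorem pad_fin {m : ℕ} (a : Fin m → ℚ) (t : Fin m) : pad a t = a t := by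
  unfold pad
  rw [dif_pos t.2]

theorem pad_ge {m : ℕ} (a : Fin m → ℚ) {t : ℕ} (h : m ≤ t) : pad a t = 0 := by
  unfold pad
  rw [dif_neg (by omega)]

/-- The combinations of `lam 0, ..., lam (r - 1)` which are killed by all functionals. -/
def XN (lam : ℕ → ℂ) (x : ℕ → ℕ → ℚ) (r : ℕ) : Submodule Qa ℂ where
  carrier := {z | ∃ c : Fin r → Qa, (∀ t : ℕ, ∑ j, c j * ((x j t : ℚ) : Qa) = 0) ∧
    z = ∑ j, c j • lam j}
  zero_mem' := ⟨0, fun s => by simp, by simp⟩
  add_mem' := by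
    rintro _ _ ⟨c, hc, rfl⟩ ⟨d, hd, rfl⟩
    refine ⟨c + d, fun s => ?_, ?_⟩
    · simp only [Pi.add_apply, add_mul, Finset.sum_add_distrib, hc s, hd s, add_zero]
    · simp only [Pi.add_apply, add_smul, Finset.sum_add_distrib]
  smul_mem' := by
    rintro q _ ⟨c, hc, rfl⟩
    refine ⟨q • c, fun s => ?_, ?_⟩
    · simp only [Pi.smul_apply, smul_eq_mul, mul_assoc, ← Finset.mul_sum, hc s, mul_zero]
    · simp only [Pi.smul_apply, smul_eq_mul, mul_smul, ← Finset.smul_sum]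

theorem mem_XN {lam : ℕ → ℂ} {x : ℕ → ℕ → ℚ} {r : ℕ} {z : ℂ} :
    z ∈ XN lam x r ↔ ∃ c : Fin r → Qa, (∀ t : ℕ, ∑ j, c j * ((x j t : ℚ) : Qa) = 0) ∧
      z = ∑ j, c j • lam j := Iff.rfl

/-- Only finitely many coordinates matter. -/
theorem XN_eq (lam : ℕ → ℂ) (x : ℕ → ℕ → ℚ) (r m : ℕ) (h : ∀ j < r, ∀ t, m ≤ t → x j t = 0) :
    XN lam x r = Xr lam (res m x) r := by
  ext z
  rw [mem_XN, FC.mem_Xr]
  refine exists_congr fun c => and_congr_left fun _ => ⟨fun hc t => hc t, fun hc t => ?_⟩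
  rcases Nat.lt_or_ge t m with ht | ht
  · exact hc ⟨t, ht⟩
  · refine Finset.sum_eq_zero fun j _ => ?_
    rw [h j j.2 t ht, Rat.cast_zero, mul_zero]

/-- `XN lam x r` only depends on the values below `r`. -/
theorem XN_congr (lam : ℕ → ℂ) {x y : ℕ → ℕ → ℚ} {r : ℕ}
    (h : ∀ j < r, x j = y j) : XN lam x r = XN lam y r := by
  ext z
  rw [mem_XN, mem_XN]
  have h' : ∀ j : Fin r, x j = y j := fun j => h j j.2
  simp only [h']

theorem res_update (m : ℕ) (x : ℕ → ℕ → ℚ) (r : ℕ) (a : Fin m → ℚ) :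
    res m (Function.update x r (pad a)) = Function.update (res m x) r a := by
  funext j t
  rcases eq_or_ne j r with rfl | hj
  · rw [Function.update_self]
    unfold res
    rw [Function.update_self, pad_fin]
  · rw [Function.update_of_ne hj]
    unfold res
    rw [Function.update_of_ne hj]

/-- The invariant of the recursion. -/
private def Inv {I : Type} (μ : ℕ → ℕ) (s : ℕ) (lam : ℕ → ℂ)
    (G : I → Submodule Qa ℂ → Submodule Qa ℂ → Prop) (ρ : I → ℕ) (r : ℕ)
    (x : ℕ → ℕ → ℚ) : Prop :=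
  (∀ j t, μ j ≤ t → x j t = 0) ∧ (∀ j < s, x j = 0) ∧
    ∀ i, ρ i ≤ r → G i (XN lam x r) (XN lam x (ρ i))

private theorem inv_step {I : Type} {μ : ℕ → ℕ} (hμ : Monotone μ) {s : ℕ} (lam : ℕ → ℂ)
    (G : I → Submodule Qa ℂ → Submodule Qa ℂ → Prop) (ρ : I → ℕ)
    (hfin : ∀ r, {i | ρ i ≤ r}.Finite)
    (hbase : ∀ i (x : ℕ → ℕ → ℚ), (∀ j < s, x j = 0) → G i (XN lam x (ρ i)) (XN lam x (ρ i)))
    (hstep : ∀ i r, ρ i ≤ r → ∀ (x : ℕ → Fin (μ r) → ℚ) (U : Ultrafilter (Fin (μ r) → ℚ)),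
      Gen U → ∀ V, G i (Xr lam x r) V → ∀ᶠ a in (U : Filter (Fin (μ r) → ℚ)),
        G i (Xr lam (Function.update x r a) (r + 1)) V)
    (r : ℕ) (hr : s ≤ r) (x : ℕ → ℕ → ℚ) (h : Inv μ s lam G ρ r x) :
    ∃ a : Fin (μ r) → ℚ, Inv μ s lam G ρ (r + 1) (Function.update x r (pad a)) := by
  obtain ⟨U, hU⟩ := FC.exists_gen (μ r)
  obtain ⟨h1, h2, h3⟩ := h
  have hX : XN lam x r = Xr lam (res (μ r) x) r :=
    XN_eq lam x r (μ r) fun j hj t ht => h1 j t ((hμ hj.le).trans ht)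
  have h4 : ∀ᶠ a in (U : Filter (Fin (μ r) → ℚ)), ∀ i ∈ {i | ρ i ≤ r},
      G i (Xr lam (Function.update (res (μ r) x) r a) (r + 1)) (XN lam x (ρ i)) := by
    rw [Filter.eventually_all_finite (hfin r)]
    intro i hi
    refine hstep i r hi (res (μ r) x) U hU _ ?_
    rw [← hX]
    exact h3 i hi
  obtain ⟨a, ha⟩ := h4.exists
  have h5 : ∀ j t, μ j ≤ t → Function.update x r (pad a) j t = 0 := by
    intro j t ht
    rcases eq_or_ne j r with rfl | hj
    · rw [Function.update_self]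
      exact pad_ge a ht
    · rw [Function.update_of_ne hj]
      exact h1 j t ht
  have h6 : ∀ j < s, Function.update x r (pad a) j = 0 := by
    intro j hj
    rw [Function.update_of_ne (by omega)]
    exact h2 j hj
  refine ⟨a, h5, h6, fun i hi => ?_⟩
  rcases Nat.lt_or_ge r (ρ i) with hri | hri
  · obtain hρ : ρ i = r + 1 := by omega
    rw [← hρ]
    exact hbase i _ h6
  · have h7 : XN lam (Function.update x r (pad a)) (ρ i) = XN lam x (ρ i) :=
      XN_congr lam fun j hj => Function.update_of_ne (by omega) _ _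
    have h8 : XN lam (Function.update x r (pad a)) (r + 1) =
        Xr lam (Function.update (res (μ r) x) r a) (r + 1) := by
      rw [XN_eq lam _ (r + 1) (μ r) fun j hj t ht =>
        h5 j t ((hμ (Nat.lt_succ_iff.1 hj)).trans ht), res_update]
    rw [h7, h8]
    exact ha i hri

/-- The recursion. -/
theorem exists_x {I : Type} {μ : ℕ → ℕ} (hμ : Monotone μ) (s : ℕ) (lam : ℕ → ℂ)
    (G : I → Submodule Qa ℂ → Submodule Qa ℂ → Prop) (ρ : I → ℕ)
    (hfin : ∀ r, {i | ρ i ≤ r}.Finite) (hs : ∀ i, s ≤ ρ i)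
    (hbase : ∀ i (x : ℕ → ℕ → ℚ), (∀ j < s, x j = 0) → G i (XN lam x (ρ i)) (XN lam x (ρ i)))
    (hstep : ∀ i r, ρ i ≤ r → ∀ (x : ℕ → Fin (μ r) → ℚ) (U : Ultrafilter (Fin (μ r) → ℚ)),
      Gen U → ∀ V, G i (Xr lam x r) V → ∀ᶠ a in (U : Filter (Fin (μ r) → ℚ)),
        G i (Xr lam (Function.update x r a) (r + 1)) V) :
    ∃ x : ℕ → ℕ → ℚ, (∀ j t, μ j ≤ t → x j t = 0) ∧ (∀ j < s, x j = 0) ∧
      ∀ i r, ρ i ≤ r → G i (XN lam x r) (XN lam x (ρ i)) := by
  choose a ha using fun (r : ℕ) (hr : s ≤ r) (x : ℕ → ℕ → ℚ) (h : Inv μ s lam G ρ r x) =>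
    inv_step hμ lam G ρ hfin hbase hstep r hr x h
  have h0 : Inv μ s lam G ρ (0 + s) (0 : ℕ → ℕ → ℚ) := by
    refine ⟨fun j t _ => rfl, fun j _ => rfl, fun i hi => ?_⟩
    have h1 : ρ i = 0 + s := by
      have := hs i
      omega
    rw [← h1]
    exact hbase i _ fun j _ => rfl
  let q : ∀ r : ℕ, {x : ℕ → ℕ → ℚ // Inv μ s lam G ρ (r + s) x} := fun r =>
    Nat.rec ⟨0, h0⟩
      (fun r p => ⟨Function.update p.1 (r + s) (pad (a (r + s) (by omega) p.1 p.2)), by
        have h1 := ha (r + s) (by omega) p.1 p.2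
        have h2 : r + 1 + s = r + s + 1 := by omega
        rw [h2]
        exact h1⟩) r
  have hq : ∀ r, (q (r + 1)).1 =
      Function.update (q r).1 (r + s) (pad (a (r + s) (by omega) (q r).1 (q r).2)) :=
    fun r => rfl
  have hstab : ∀ r k, ∀ j < r + s, (q (r + k)).1 j = (q r).1 j := by
    intro r k
    induction k with
    | zero => exact fun j _ => rfl
    | succ k ih =>
      intro j hj
      rw [← add_assoc, hq, Function.update_of_ne (by omega)]
      exact ih j hj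
  obtain ⟨x, hx⟩ : ∃ x : ℕ → ℕ → ℚ, x = fun j => (q (j + 1)).1 j := ⟨_, rfl⟩
  have key : ∀ r, ∀ j < r + s, (q r).1 j = x j := by
    intro r j hj
    rw [hx]
    dsimp only
    rcases le_total r (j + 1) with h | h
    · obtain ⟨k, hk⟩ := Nat.exists_eq_add_of_le h
      rw [hk]
      exact (hstab r k j hj).symm
    · obtain ⟨k, hk⟩ := Nat.exists_eq_add_of_le h
      rw [hk]
      exact hstab (j + 1) k j (by omega)
  refine ⟨x, fun j t ht => ?_, fun j hj => ?_, fun i r hir => ?_⟩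
  · rw [← key (j + 1) j (by omega)]
    exact (q (j + 1)).2.1 j t ht
  · rw [← key 0 j (by omega)]
    exact (q 0).2.2.1 j hj
  · obtain ⟨k, rfl⟩ : ∃ k, r = k + s := ⟨r - s, by have := hs i; omega⟩
    have h1 : XN lam x (k + s) = XN lam (q k).1 (k + s) :=
      XN_congr lam fun j hj => (key k j hj).symm
    have h2 : XN lam x (ρ i) = XN lam (q k).1 (ρ i) :=
      XN_congr lam fun j hj => (key k j (by omega)).symm
    rw [h1, h2]
    exact (q k).2.2.2 i hir

theorem XN_mono (lam : ℕ → ℂ) (x : ℕ → ℕ → ℚ) {r r' : ℕ} (h : r ≤ r') :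
    XN lam x r ≤ XN lam x r' := by
  induction r', h using Nat.le_induction with
  | base => exact le_rfl
  | succ r' _ ih =>
    refine ih.trans ?_
    rintro z ⟨c, hc, rfl⟩
    refine ⟨Fin.snoc (α := fun _ => Qa) c 0, fun s => ?_, ?_⟩
    · rw [Fin.sum_univ_castSucc]
      simp only [Fin.snoc_castSucc, Fin.snoc_last, zero_mul, add_zero, Fin.val_castSucc]
      exact hc s
    · rw [Fin.sum_univ_castSucc]
      simp only [Fin.snoc_castSucc, Fin.snoc_last, zero_smul, add_zero, Fin.val_castSucc]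

/-- The linear map with given values at `lam j`. -/
theorem exists_Phi (lam : ℕ → ℂ) (hli : LinearIndependent ℚ lam)
    (x : ℕ → ℕ → ℚ) : ∃ Φ : ℂ →ₗ[ℚ] (ℕ → ℚ), ∀ j, Φ (lam j) = x j := by
  obtain ⟨Φ, hΦ⟩ := LinearMap.exists_extend ((Basis.span hli).constr ℚ x)
  refine ⟨Φ, fun j => ?_⟩
  have h1 : Φ ((Basis.span hli j : Submodule.span ℚ (Set.range lam)) : ℂ) = x j := by
    have h2 := congrArg (fun f => f (Basis.span hli j)) hΦ
    simp only [LinearMap.comp_apply, Submodule.subtype_apply] at h2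
    rw [h2, Basis.constr_basis]
  rwa [Basis.span_apply] at h1

/-- A finite family in the span of `{z | exp z algebraic, Φ z = 0}` is in some `XN lam x r`. -/
theorem exists_r {n : ℕ} (lam : ℕ → ℂ) (x : ℕ → ℕ → ℚ)
    (hspan : ∀ z : ℂ, IsAlgebraic ℚ (Complex.exp z) → z ∈ Submodule.span ℚ (Set.range lam))
    (Φ : ℂ →ₗ[ℚ] (ℕ → ℚ)) (hΦ : ∀ j, Φ (lam j) = x j) (w : Fin n → ℂ)
    (hw : ∀ i, w i ∈ Submodule.span Qa {z : ℂ | IsAlgebraic ℚ (Complex.exp z) ∧ Φ z = 0}) :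
    ∃ r, ∀ i, w i ∈ XN lam x r := by
  classical
  have key : ∀ z ∈ Submodule.span Qa {z : ℂ | IsAlgebraic ℚ (Complex.exp z) ∧ Φ z = 0},
      ∃ r, z ∈ XN lam x r := by
    intro z hz
    induction hz using Submodule.span_induction with
    | mem z hz =>
      obtain ⟨hz1, hz2⟩ := hz
      obtain ⟨c, hc⟩ := Finsupp.mem_span_range_iff_exists_finsupp.1 (hspan z hz1)
      obtain ⟨r, hr⟩ : ∃ r, ∀ j ∈ c.support, j < r :=
        ⟨c.support.sup id + 1, fun j hj => Nat.lt_succ_of_le (Finset.le_sup (f := id) hj)⟩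
      have hz3 : z = ∑ j : Fin r, c j • lam j := by
        rw [← hc, Finsupp.sum, Finset.sum_subset (s₂ := Finset.range r)
          (fun j hj => Finset.mem_range.2 (hr j hj))
          (fun j _ hj => by rw [Finsupp.notMem_support_iff.1 hj, zero_smul])]
        exact (Fin.sum_univ_eq_sum_range (fun j => c j • lam j) r).symm
      refine ⟨r, mem_XN.2 ⟨fun j => ((c j : ℚ) : Qa), fun s => ?_, ?_⟩⟩
      · have h1 : ∑ j : Fin r, c j * x j s = 0 := by
          have h2 := congrArg (fun f => f s) hz2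
          rw [hz3] at h2
          simpa [hΦ] using h2
        have h3 := congrArg (fun q : ℚ => (q : Qa)) h1
        push_cast at h3
        exact h3
      · rw [hz3]
        refine Finset.sum_congr rfl fun j _ => ?_
        rw [Rat.smul_def, Algebra.smul_def]
        congr 1
    | zero => exact ⟨0, Submodule.zero_mem _⟩
    | add z z' _ _ hz hz' =>
      obtain ⟨r, hr⟩ := hz
      obtain ⟨r', hr'⟩ := hz'
      exact ⟨max r r', Submodule.add_mem _ (XN_mono lam x (le_max_left _ _) hr)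
        (XN_mono lam x (le_max_right _ _) hr')⟩
    | smul q z _ hz =>
      obtain ⟨r, hr⟩ := hz
      exact ⟨r, Submodule.smul_mem _ _ hr⟩
  choose r hr using fun i => key (w i) (hw i)
  exact ⟨Finset.univ.sup r, fun i => XN_mono lam x (Finset.le_sup (Finset.mem_univ i)) (hr i)⟩

/-- `XN` is spanned by the logarithms in the kernel. -/
theorem XN_le_span {μ : ℕ → ℕ} (hμ : Monotone μ) (lam : ℕ → ℂ)
    (halg : ∀ j, IsAlgebraic ℚ (Complex.exp (lam j))) (x : ℕ → ℕ → ℚ)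
    (hx : ∀ j t, μ j ≤ t → x j t = 0) (Φ : ℂ →ₗ[ℚ] (ℕ → ℚ)) (hΦ : ∀ j, Φ (lam j) = x j)
    (F : Submodule ℚ ℂ) (hF : ∀ l : ℂ, l ∈ F ↔ IsAlgebraic ℚ (Complex.exp l) ∧ Φ l = 0) (r : ℕ) :
    XN lam x r ≤ Submodule.span Qa
      ((F ⊓ Submodule.span ℚ (lam '' Set.Iio r) : Submodule ℚ ℂ) : Set ℂ) := by
  have h1 : XN lam x r = Xr lam (res (μ r) x) r :=
    XN_eq lam x r (μ r) fun j hj t ht => hx j t ((hμ hj.le).trans ht)
  rw [h1]
  refine (FQ.Xr_le_span lam (res (μ r) x) r).trans (Submodule.span_mono ?_)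
  rintro _ ⟨c, hc, rfl⟩
  refine ⟨?_, ?_⟩
  · rw [SetLike.mem_coe, hF]
    constructor
    · have h2 : ∑ j : Fin r, (c j : ℂ) * lam j ∈ SE.Lg := by
        refine Submodule.sum_mem _ fun j _ => ?_
        rw [← Rat.smul_def]
        exact Submodule.smul_mem _ _ (halg j)
      exact h2
    · funext t
      have h2 : ∀ j : Fin r, Φ ((c j : ℂ) * lam j) = c j • x j := by
        intro j
        rw [← Rat.smul_def, map_smul, hΦ]
      rw [map_sum, Finset.sum_apply, Pi.zero_apply]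
      rcases Nat.lt_or_ge t (μ r) with ht | ht
      · rw [← hc ⟨t, ht⟩]
        refine Finset.sum_congr rfl fun j _ => ?_
        rw [h2, Pi.smul_apply, smul_eq_mul]
        rfl
      · refine Finset.sum_eq_zero fun j _ => ?_
        rw [h2, Pi.smul_apply, smul_eq_mul, hx j t ((hμ j.2.le).trans ht), mul_zero]
  · refine Submodule.sum_mem _ fun j _ => ?_
    rw [← Rat.smul_def]
    exact Submodule.smul_mem _ _ (Submodule.subset_span ⟨j, j.2, rfl⟩)

end MP60829e.FG
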